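import Pool.Agent.Lib.MP_baf44c_co.Q1.En.Table
import Pool.Agent.Lib.MP_baf44c_co.Q1.En.Data

/-!
The characters satisfy the conditions for the tables.
-/

set_option autoImplicit false
set_option maxRecDepth 100000

namespace Pool.Agent.Lib.MP_baf44c_co.Q1.En

/-- Boolean test of `Sim`. -/
private def simB (M n m : ℕ) : Bool :=
  (Nat.beq (n % M) (m % M)) || (Nat.beq ((n + m) % M) 0)

private theorem simB_spec {M n m : ℕ} (h : simB M n m = true) : Sim M n m := by
  unfold simB at h
  rw [Bool.or_eq_true] at h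
  rcases h with h | h
  · exact Or.inl (Nat.eq_of_beq_eq_true h)
  · exact Or.inr (Nat.dvd_of_mod_eq_zero (Nat.eq_of_beq_eq_true h))

/-- Boolean test for all `i < n`. -/
private def allB (f : ℕ → Bool) (n : ℕ) : Bool := Nat.rec true (fun i ih => f i && ih) n

private theorem allB_spec {f : ℕ → Bool} {n : ℕ} (h : allB f n = true) : ∀ i < n, f i = true := by
  induction n with
  | zero => intro i hi; omega
  | succ n ih =>
    have h' : (f n && allB f n) = true := h
    rw [Bool.and_eq_true] at h'
    intro i hi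
    rcases Nat.lt_succ_iff_lt_or_eq.1 hi with hi | hi
    · exact ih h'.2 i hi
    · rw [hi]; exact h'.1

private def ixB (c : Ch) (j : ℕ) : Bool :=
  Nat.blt (c.ix.getD j 0) c.r && simB c.p (primes.getD j 0) (Nat.pow c.g (c.ix.getD j 0))

private def sB (c : Ch) (n : ℕ) : Bool :=
  Nat.beq (Nat.land (Nat.shiftRight c.s n) 1)
    (Nat.land (Nat.shiftRight c.s (Nat.mod (Nat.sub (Nat.mul 2 c.p) n) (Nat.mul 2 c.p))) 1)

private def goodB (c : Ch) : Bool :=
  (Nat.beq (c.p % 2) 1 && (Nat.blt 1 c.p && (Nat.blt 0 c.r && (simB c.p (Nat.pow c.g c.r) 1 &&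
    (simB c.p 2 (Nat.pow c.g c.i2) && (Nat.beq c.ix.length 16 && (allB (ixB c) 16 &&
      allB (sB c) (Nat.mul 2 c.p))))))))

private theorem testBit_eq_land (a n : ℕ) :
    a.testBit n = Nat.beq (Nat.land (Nat.shiftRight a n) 1) 1 := by
  have h : Nat.land (Nat.shiftRight a n) 1 = (a >>> n) % 2 := Nat.and_one_is_mod _
  rw [h, Nat.testBit_eq_decide_div_mod_eq, Nat.shiftRight_eq_div_pow]
  rcases Nat.mod_two_eq_zero_or_one (a / 2 ^ n) with h0 | h0 <;> rw [h0] <;> rfl

private theorem goodB_spec {c : Ch} (h : goodB c = true) : Good c := by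
  unfold goodB at h
  simp only [Bool.and_eq_true] at h
  obtain ⟨h1, h2, h3, h4, h5, h6, h7, h8⟩ := h
  refine ⟨Nat.eq_of_beq_eq_true h1, Nat.le_of_ble_eq_true h2, Nat.le_of_ble_eq_true h3,
    simB_spec h4, simB_spec h5, Nat.eq_of_beq_eq_true h6, ?_, ?_⟩
  · intro j hj
    have := allB_spec h7 j hj
    unfold ixB at this
    rw [Bool.and_eq_true] at this
    exact ⟨Nat.le_of_ble_eq_true this.1, simB_spec this.2⟩
  · intro n hn
    have := allB_spec h8 n hn
    unfold sB at this
    rw [testBit_eq_land, testBit_eq_land]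
    have e := Nat.eq_of_beq_eq_true this
    have e2 : (2 * c.p - n) % (2 * c.p) =
      Nat.mod (Nat.sub (Nat.mul 2 c.p) n) (Nat.mul 2 c.p) := rfl
    rw [e2, e]

private def allL (f : Ch → Bool) (l : List Ch) : Bool := List.rec true (fun c _ ih => f c && ih) l

private theorem allL_spec {f : Ch → Bool} {l : List Ch} (h : allL f l = true) :
    ∀ c ∈ l, f c = true := by
  induction l with
  | nil => intro c hc; simp at hc
  | cons a l ih =>
    have h' : (f a && allL f l) = true := h
    rw [Bool.and_eq_true] at h'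
    intro c hc
    rcases List.mem_cons.1 hc with hc | hc
    · rw [hc]; exact h'.1
    · exact ih h'.2 c hc

private theorem chs_test : allL goodB chs = true := by decide +kernel

/-- Trial division: no divisor `d` with `2 ≤ d < 20`. -/
private def primeB (c : Ch) : Bool :=
  Nat.blt 59 c.p && (Nat.blt c.p 400 &&
    allB (fun d => Nat.blt d 2 || !(Nat.beq (c.p % d) 0)) 20)

private theorem primeB_spec {c : Ch} (h : primeB c = true) : c.p.Prime ∧ 59 < c.p := by
  unfold primeB at h
  simp only [Bool.and_eq_true] at h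
  obtain ⟨h1, h2, h3⟩ := h
  have h1' : 59 < c.p := Nat.le_of_ble_eq_true h1
  have h2' : c.p < 400 := Nat.le_of_ble_eq_true h2
  refine ⟨?_, h1'⟩
  by_contra hp
  have hm := Nat.minFac_sq_le_self (n := c.p) (by omega) hp
  have hm2 : 2 ≤ c.p.minFac := (Nat.minFac_prime (by omega)).two_le
  have hm3 : c.p.minFac < 20 := by
    by_contra hc
    have : 20 ^ 2 ≤ c.p.minFac ^ 2 := Nat.pow_le_pow_left (by omega) 2
    omega
  have h4 := allB_spec h3 _ hm3
  rw [Bool.or_eq_true] at h4
  rcases h4 with h4 | h4
  · have := Nat.le_of_ble_eq_true h4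
    omega
  · have h5 : c.p % c.p.minFac = 0 := Nat.mod_eq_zero_of_dvd (Nat.minFac_dvd _)
    rw [h5] at h4
    exact absurd h4 (by decide)

private theorem chs_ptest : allL primeB chs = true := by decide +kernel

/-- Write a boolean test (with `Nat.rec` or structural recursion; note that `Nat.ModEq`, `∣` are decidable)
and evaluate it by `decide +kernel`; the numbers `c.g ^ c.r` are small enough for the kernel. -/
theorem chs_good : ∀ c ∈ chs, Good c := by
  intro c hc
  exact goodB_spec (allL_spec chs_test c hc)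

/-- By `norm_num` for the `30` entries (the primes `c.p` are below `1000`), or by a kernel test. -/
theorem chs_prime : ∀ c ∈ chs, c.p.Prime ∧ 59 < c.p := by
  intro c hc
  exact primeB_spec (allL_spec chs_ptest c hc)

end Pool.Agent.Lib.MP_baf44c_co.Q1.En
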