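import Mathlib

/-!
Computation of quadratic characters of products of Pell numbers, written with primitive recursors
for evaluation in the kernel.
-/

set_option autoImplicit false

namespace Pool.Agent.Lib.MP_baf44c_co.Q1.En

/-- Data of a character: `l` divides the Pell number with index the prime `p`; bit `n` of `s` is `1` iff
the Jacobi symbol of the Pell number `P_n` modulo `l` is `-1` (`n < 2 p`); `g` generates the classes mod
`p` up to sign, `r = (p - 1) / 2`; `2 = ± g ^ i2` and `q = ± g ^ i` mod `p` for the primes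
`q = 3, 5, …, 59` and the entries `i` of `ix`. -/
structure Ch where
  p : ℕ
  r : ℕ
  l : ℕ
  g : ℕ
  i2 : ℕ
  s : ℕ
  ix : List ℕ

/-- The odd primes up to `59`. -/
def primes : List ℕ := [3, 5, 7, 11, 13, 17, 19, 23, 29, 31, 37, 41, 43, 47, 53, 59]

/-- `x, x g, x g ^ 2, …` mod `p`, `n` terms. -/
noncomputable def pows (p g n : ℕ) : ℕ → List ℕ :=
  Nat.rec (motive := fun _ => ℕ → List ℕ) (fun _ => [])
    (fun _ ih x => x :: ih (Nat.mod (Nat.mul x g) p)) n

/-- The representative of `x` modulo `p` (odd) with parity `b` (`0` or `1`). -/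
noncomputable def rep (p b x : ℕ) : ℕ := Bool.rec (Nat.add x p) x (Nat.beq (Nat.mod x 2) b)

/-- Bit `n` of `s`, as a number. -/
noncomputable def bit (s n : ℕ) : ℕ := Nat.land (Nat.shiftRight s n) 1

/-- The value `0` or `1` at `n` in mode `m`: the bit of `P_n` for `m = 0`, the sum of the bits of `P_n` and
`P_(2n)` for `m = 1, 2`. -/
noncomputable def val (c : Ch) (m n : ℕ) : ℕ :=
  Bool.rec (Nat.xor (bit c.s (Nat.mod n (Nat.mul 2 c.p))) (bit c.s (Nat.mod (Nat.mul 2 n) (Nat.mul 2 c.p))))
    (bit c.s (Nat.mod n (Nat.mul 2 c.p))) (Nat.beq m 0)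

/-- Parity of the representatives in mode `m`: odd for `m = 0, 1`, even for `m = 2`. -/
noncomputable def par (m : ℕ) : ℕ := Bool.rec 1 0 (Nat.beq m 2)

/-- The values at the representatives of `g ^ 0, g ^ 1, …`. -/
noncomputable def start (c : Ch) (m : ℕ) : List ℕ :=
  List.rec [] (fun x _ ih => val c m (rep c.p (par m) x) :: ih) (pows c.p c.g c.r 1)

/-- Append. -/
noncomputable def app (l r : List ℕ) : List ℕ := List.rec r (fun a _ ih => a :: ih) l

/-- Drop `n` entries. -/
noncomputable def drop (n : ℕ) : List ℕ → List ℕ :=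
  Nat.rec (motive := fun _ => List ℕ → List ℕ) (fun l => l)
    (fun _ ih l => List.rec (motive := fun _ => List ℕ) [] (fun _ t _ => ih t) l) n

/-- Take `n` entries. -/
noncomputable def take (n : ℕ) : List ℕ → List ℕ :=
  Nat.rec (motive := fun _ => List ℕ → List ℕ) (fun _ => [])
    (fun _ ih l => List.rec (motive := fun _ => List ℕ) [] (fun a t _ => a :: ih t) l) n

/-- One doubling step: `a ||| ((a ^^^ b) <<< w)` for corresponding entries. -/
noncomputable def zipx (w : ℕ) (l : List ℕ) : List ℕ → List ℕ :=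
  List.rec (motive := fun _ => List ℕ → List ℕ) (fun _ => [])
    (fun a _ ih m => List.rec (motive := fun _ => List ℕ) []
      (fun b m' _ => Nat.lor a (Nat.shiftLeft (Nat.xor a b) w) :: ih m') m) l

/-- All doubling steps. -/
noncomputable def build (ix : List ℕ) : ℕ → List ℕ → List ℕ :=
  List.rec (motive := fun _ => ℕ → List ℕ → List ℕ) (fun _ l => l)
    (fun i _ ih w l => ih (Nat.mul 2 w) (zipx w l (drop i (app l l)))) ix

/-- Rows of length `8`. -/
noncomputable def rows (n : ℕ) : List ℕ → List (List ℕ) :=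
  Nat.rec (motive := fun _ => List ℕ → List (List ℕ)) (fun _ => [])
    (fun _ ih l => take 8 l :: ih (drop 8 l)) n

/-- The table of a character in mode `m`. -/
noncomputable def tab (m : ℕ) (c : Ch) : List (List ℕ) :=
  rows (Nat.succ (Nat.div c.r 8)) (build c.ix 1 (start c m))

/-- Entry `n` of a list of numbers. -/
noncomputable def nth (n : ℕ) : List ℕ → ℕ :=
  Nat.rec (motive := fun _ => List ℕ → ℕ)
    (fun l => List.rec (motive := fun _ => ℕ) 0 (fun a _ _ => a) l)
    (fun _ ih l => List.rec (motive := fun _ => ℕ) 0 (fun _ t _ => ih t) l) n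

/-- Entry `n` of a list of rows. -/
noncomputable def row (n : ℕ) : List (List ℕ) → List ℕ :=
  Nat.rec (motive := fun _ => List (List ℕ) → List ℕ)
    (fun l => List.rec (motive := fun _ => List ℕ) [] (fun a _ _ => a) l)
    (fun _ ih l => List.rec (motive := fun _ => List ℕ) [] (fun _ t _ => ih t) l) n

/-- Look up entry `c`. -/
noncomputable def look (t : List (List ℕ)) (c : ℕ) : ℕ := nth (Nat.mod c 8) (row (Nat.div c 8) t)

/-- Indices after multiplication by a prime with indices `i`. -/
noncomputable def upd (rs : List ℕ) : List ℕ → List ℕ → List ℕ :=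
  List.rec (motive := fun _ => List ℕ → List ℕ → List ℕ) (fun _ _ => [])
    (fun r _ ih i c => List.rec (motive := fun _ => List ℕ) []
      (fun i0 i' _ => List.rec (motive := fun _ => List ℕ) []
        (fun c0 c' _ => Nat.mod (Nat.add c0 i0) r :: ih i' c') c) i) rs

/-- Cover test: starting from `acc`, the union of the table entries with indices `cs` is `full`. -/
noncomputable def cov (full : ℕ) (ts : List (List (List ℕ))) : List ℕ → ℕ → Bool :=
  List.rec (motive := fun _ => List ℕ → ℕ → Bool) (fun _ acc => Nat.beq acc full)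
    (fun t _ ih cs acc => Bool.rec
      (List.rec (motive := fun _ => Bool) false
        (fun c cs' _ => ih cs' (Nat.lor acc (look t c))) cs) true (Nat.beq acc full)) ts

/-- Branch over the primes: entries `(q, (i, M))`. -/
noncomputable def br (B n : ℕ) (rs : List ℕ) (cs : List ℕ) (mask : ℕ)
    (f : ℕ → List ℕ → ℕ → List (ℕ × (List ℕ × ℕ)) → Bool) (Q : List (ℕ × (List ℕ × ℕ))) : Bool :=
  List.rec (motive := fun _ => Bool) true
    (fun a Q' ih => Bool.rec true
      (Bool.rec false ih (f (Nat.mul n a.1) (upd rs a.2.1 cs) (Nat.lor mask a.2.2) (a :: Q')))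
      (Nat.ble (Nat.mul n a.1) B)) Q

/-- Walk through the numbers `n ≤ B` with prime factors in `Q`. -/
noncomputable def walk (full B : ℕ) (rs : List ℕ) (ts : List (List (List ℕ))) (fuel : ℕ) :
    ℕ → List ℕ → ℕ → List (ℕ × (List ℕ × ℕ)) → Bool :=
  Nat.rec (motive := fun _ => ℕ → List ℕ → ℕ → List (ℕ × (List ℕ × ℕ)) → Bool)
    (fun _ _ _ _ => false)
    (fun _ ih n cs mask Q => Bool.rec false (br B n rs cs mask ih Q) (cov full ts cs mask)) fuel

/-- `2 ^ (2 ^ 16) - 1`. -/
noncomputable def full : ℕ := Nat.sub (Nat.pow 2 (Nat.pow 2 16)) 1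

/-- The mask of the `r < 2 ^ 16` without the bit `j`. -/
noncomputable def msk (j : ℕ) : ℕ := Nat.div full (Nat.succ (Nat.pow 2 (Nat.pow 2 j)))

/-- The list of the entries number `j` of the lists `ix`. -/
noncomputable def col (j : ℕ) (cs : List Ch) : List ℕ :=
  List.rec [] (fun c _ ih => nth j c.ix :: ih) cs

/-- The data of the primes for `walk`, from the prime number `j` on. -/
noncomputable def pdata (cs : List Ch) (ps : List ℕ) : ℕ → List (ℕ × (List ℕ × ℕ)) :=
  List.rec (motive := fun _ => ℕ → List (ℕ × (List ℕ × ℕ))) (fun _ => [])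
    (fun p _ ih j => (p, (col j cs, msk j)) :: ih (Nat.succ j)) ps

/-- The indices of `2 ^ e`. -/
noncomputable def two (e : ℕ) (cs : List Ch) : List ℕ :=
  List.rec [] (fun c _ ih => Nat.mod (Nat.mul e c.i2) c.r :: ih) cs

/-- The list of the `r`. -/
noncomputable def rs (cs : List Ch) : List ℕ := List.rec [] (fun c _ ih => c.r :: ih) cs

/-- The list of the tables. -/
noncomputable def tabs (m : ℕ) (cs : List Ch) : List (List (List ℕ)) :=
  List.rec [] (fun c _ ih => tab m c :: ih) cs

/-- The whole computation, for `2 ^ e n`, `n ≤ B` with prime factors in `primes`; the mask `ex` is used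
for `n = 1`. -/
noncomputable def run (cs : List Ch) (m e B ex : ℕ) : Bool :=
  Bool.rec false
    (br B 1 (rs cs) (two e cs) 0 (walk full B (rs cs) (tabs m cs) 20) (pdata cs primes 0))
    (cov full (tabs m cs) (two e cs) ex)

end Pool.Agent.Lib.MP_baf44c_co.Q1.En
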