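import Pool.Agent.Lib.MP_baf44c_co.Q1.En.Defs

/-!
Equations for the functions of `Defs`.
-/

set_option autoImplicit false

namespace Pool.Agent.Lib.MP_baf44c_co.Q1.En

theorem pows_zero (p g x : ℕ) : pows p g 0 x = [] := rfl

theorem pows_succ (p g n x : ℕ) : pows p g (n + 1) x = x :: pows p g n (x * g % p) := rfl

theorem pows_length (p g n x : ℕ) : (pows p g n x).length = n := by
  induction n generalizing x with
  | zero => rfl
  | succ n ih => rw [pows_succ, List.length_cons, ih]

/-- The entries of `pows`. -/
theorem pows_getD {p g n x j : ℕ} (hj : j < n) (hx : x < p) :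
    (pows p g n x).getD j 0 = x * g ^ j % p := by
  induction n generalizing x j with
  | zero => omega
  | succ n ih =>
    rw [pows_succ]
    cases j with
    | zero => simp [Nat.mod_eq_of_lt hx]
    | succ j =>
      rw [List.getD_cons_succ, ih (by omega) (Nat.mod_lt _ (by omega))]
      rw [Nat.mod_mul_mod, pow_succ']
      rw [mul_assoc]

theorem rep_eq (p b x : ℕ) : rep p b x = if x % 2 = b then x else x + p := by
  unfold rep
  by_cases h : x % 2 = b
  · have : Nat.beq (Nat.mod x 2) b = true := by rw [Nat.beq_eq]; exact h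
    rw [this, if_pos h]
  · have : Nat.beq (Nat.mod x 2) b = false := by
      rw [← Bool.not_eq_true, Nat.beq_eq]
      exact h
    rw [this, if_neg h]
    rfl

theorem bit_eq (s n : ℕ) : bit s n = if s.testBit n then 1 else 0 := by
  have h : bit s n = (s >>> n) &&& 1 := rfl
  rw [h, Nat.and_one_is_mod, Nat.testBit, Nat.and_comm, Nat.and_one_is_mod]
  rcases Nat.mod_two_eq_zero_or_one (s >>> n) with h | h <;> simp [h]

theorem val_zero (c : Ch) (n : ℕ) : val c 0 n = bit c.s (n % (2 * c.p)) := rfl

theorem val_ne (c : Ch) {m : ℕ} (hm : m ≠ 0) (n : ℕ) :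
    val c m n = bit c.s (n % (2 * c.p)) ^^^ bit c.s (2 * n % (2 * c.p)) := by
  unfold val
  have : Nat.beq m 0 = false := by
    rw [← Bool.not_eq_true, Nat.beq_eq]
    exact hm
  rw [this]
  rfl

theorem par_eq (m : ℕ) : par m = if m = 2 then 0 else 1 := by
  unfold par
  by_cases h : m = 2
  · have : Nat.beq m 2 = true := by rw [Nat.beq_eq]; exact h
    rw [this, if_pos h]
  · have : Nat.beq m 2 = false := by
      rw [← Bool.not_eq_true, Nat.beq_eq]
      exact h
    rw [this, if_neg h]

theorem start_eq (c : Ch) (m : ℕ) :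
    start c m = (pows c.p c.g c.r 1).map (fun x => val c m (rep c.p (par m) x)) := by
  unfold start
  induction pows c.p c.g c.r 1 with
  | nil => rfl
  | cons a l ih => simp only [List.map_cons, ← ih]

theorem app_eq (l r : List ℕ) : app l r = l ++ r := by
  unfold app
  induction l with
  | nil => rfl
  | cons a l ih => simp only [List.cons_append, ← ih]

theorem drop_eq (n : ℕ) (l : List ℕ) : drop n l = l.drop n := by
  induction n generalizing l with
  | zero => rfl
  | succ n ih =>
    cases l with
    | nil => rfl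
    | cons a l => exact ih l

theorem take_eq (n : ℕ) (l : List ℕ) : take n l = l.take n := by
  induction n generalizing l with
  | zero => rfl
  | succ n ih =>
    cases l with
    | nil => rfl
    | cons a l =>
      rw [List.take_succ_cons, ← ih]
      rfl

theorem zipx_eq (w : ℕ) (l m : List ℕ) :
    zipx w l m = List.zipWith (fun a b => a ||| ((a ^^^ b) <<< w)) l m := by
  induction l generalizing m with
  | nil => rfl
  | cons a l ih =>
    cases m with
    | nil => rfl
    | cons b m =>
      rw [List.zipWith_cons_cons, ← ih]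
      rfl

theorem build_nil (w : ℕ) (l : List ℕ) : build [] w l = l := rfl

theorem build_cons (i : ℕ) (ix : List ℕ) (w : ℕ) (l : List ℕ) :
    build (i :: ix) w l = build ix (2 * w) (zipx w l (drop i (app l l))) := rfl

theorem rows_zero (l : List ℕ) : rows 0 l = [] := rfl

theorem rows_succ (n : ℕ) (l : List ℕ) : rows (n + 1) l = take 8 l :: rows n (drop 8 l) := rfl

theorem nth_eq (n : ℕ) (l : List ℕ) : nth n l = l.getD n 0 := by
  induction n generalizing l with
  | zero => cases l <;> rfl
  | succ n ih =>
    cases l with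
    | nil => rfl
    | cons a l =>
      rw [List.getD_cons_succ, ← ih]
      rfl

theorem row_eq (n : ℕ) (l : List (List ℕ)) : row n l = l.getD n [] := by
  induction n generalizing l with
  | zero => cases l <;> rfl
  | succ n ih =>
    cases l with
    | nil => rfl
    | cons a l =>
      rw [List.getD_cons_succ, ← ih]
      rfl

theorem look_rows {n c : ℕ} {l : List ℕ} (hc : c < 8 * n) : look (rows n l) c = l.getD c 0 := by
  have h : ∀ (n : ℕ) (l : List ℕ) (k : ℕ), k < n → (rows n l).getD k [] = (l.drop (8 * k)).take 8 := by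
    intro n
    induction n with
    | zero => intro l k hk; omega
    | succ n ih =>
      intro l k hk
      rw [rows_succ, take_eq, drop_eq]
      cases k with
      | zero => simp
      | succ k =>
        rw [List.getD_cons_succ, ih _ _ (by omega), List.drop_drop]
        congr 2
        ring
  have e : look (rows n l) c = nth (c % 8) (row (c / 8) (rows n l)) := rfl
  rw [e, nth_eq, row_eq, h n l (c / 8) (by omega)]
  rw [List.getD_eq_getElem?_getD, List.getD_eq_getElem?_getD, List.getElem?_take,
    if_pos (Nat.mod_lt _ (by norm_num)), List.getElem?_drop]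
  congr 2
  omega

theorem upd_nil (i c : List ℕ) : upd [] i c = [] := rfl

theorem upd_cons (r i0 c0 : ℕ) (rs i c : List ℕ) :
    upd (r :: rs) (i0 :: i) (c0 :: c) = (c0 + i0) % r :: upd rs i c := rfl

theorem cov_nil (f : ℕ) (cs : List ℕ) (acc : ℕ) : cov f [] cs acc = true ↔ acc = f := by
  change Nat.beq acc f = true ↔ _
  rw [Nat.beq_eq]

theorem cov_cons (f : ℕ) (t : List (List ℕ)) (ts : List (List (List ℕ))) (c : ℕ) (cs : List ℕ)
    (acc : ℕ) : cov f (t :: ts) (c :: cs) acc = true ↔
      acc = f ∨ cov f ts cs (acc ||| look t c) = true := by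
  have e : cov f (t :: ts) (c :: cs) acc = Bool.rec (cov f ts cs (acc ||| look t c)) true
    (Nat.beq acc f) := rfl
  rw [e]
  by_cases h : acc = f
  · have : Nat.beq acc f = true := by rw [Nat.beq_eq]; exact h
    rw [this]
    simp [h]
  · have : Nat.beq acc f = false := by
      rw [← Bool.not_eq_true, Nat.beq_eq]
      exact h
    rw [this]
    simp [h]

theorem cov_cons_nil (f : ℕ) (t : List (List ℕ)) (ts : List (List (List ℕ))) (acc : ℕ) :
    cov f (t :: ts) [] acc = true ↔ acc = f := by
  have e : cov f (t :: ts) [] acc = Bool.rec false true (Nat.beq acc f) := rfl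
  rw [e]
  by_cases h : acc = f
  · have : Nat.beq acc f = true := by rw [Nat.beq_eq]; exact h
    rw [this]
    simp [h]
  · have : Nat.beq acc f = false := by
      rw [← Bool.not_eq_true, Nat.beq_eq]
      exact h
    rw [this]
    simp [h]

theorem br_nil (B n : ℕ) (rs cs : List ℕ) (mask : ℕ)
    (f : ℕ → List ℕ → ℕ → List (ℕ × (List ℕ × ℕ)) → Bool) : br B n rs cs mask f [] = true := rfl

theorem br_cons (B n : ℕ) (rs cs : List ℕ) (mask : ℕ)
    (f : ℕ → List ℕ → ℕ → List (ℕ × (List ℕ × ℕ)) → Bool) (a : ℕ × (List ℕ × ℕ))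
    (Q : List (ℕ × (List ℕ × ℕ))) : br B n rs cs mask f (a :: Q) = true ↔
      (n * a.1 ≤ B → f (n * a.1) (upd rs a.2.1 cs) (mask ||| a.2.2) (a :: Q) = true ∧
        br B n rs cs mask f Q = true) := by
  have e : br B n rs cs mask f (a :: Q) = Bool.rec true
      (Bool.rec false (br B n rs cs mask f Q)
        (f (n * a.1) (upd rs a.2.1 cs) (mask ||| a.2.2) (a :: Q)))
      (Nat.ble (n * a.1) B) := rfl
  rw [e]
  by_cases h : n * a.1 ≤ B
  · have : Nat.ble (n * a.1) B = true := by rw [Nat.ble_eq]; exact h
    rw [this]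
    cases f (n * a.1) (upd rs a.2.1 cs) (mask ||| a.2.2) (a :: Q) <;> simp [h]
  · have : Nat.ble (n * a.1) B = false := by
      rw [← Bool.not_eq_true, Nat.ble_eq]
      exact h
    rw [this]
    simp [h]

theorem walk_zero (f B : ℕ) (rs : List ℕ) (ts : List (List (List ℕ))) (n : ℕ) (cs : List ℕ)
    (mask : ℕ) (Q : List (ℕ × (List ℕ × ℕ))) : walk f B rs ts 0 n cs mask Q = false := rfl

theorem walk_succ (f B : ℕ) (rs : List ℕ) (ts : List (List (List ℕ))) (fuel n : ℕ) (cs : List ℕ)
    (mask : ℕ) (Q : List (ℕ × (List ℕ × ℕ))) : walk f B rs ts (fuel + 1) n cs mask Q = true ↔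
      cov f ts cs mask = true ∧ br B n rs cs mask (walk f B rs ts fuel) Q = true := by
  have e : walk f B rs ts (fuel + 1) n cs mask Q =
      Bool.rec false (br B n rs cs mask (walk f B rs ts fuel) Q) (cov f ts cs mask) := rfl
  rw [e]
  cases cov f ts cs mask <;> simp

theorem full_eq : full = 2 ^ 2 ^ 16 - 1 := by
  unfold full
  rw [Nat.sub_eq, Nat.pow_eq, Nat.pow_eq]

theorem col_eq (j : ℕ) (cs : List Ch) : col j cs = cs.map (fun c => c.ix.getD j 0) := by
  unfold col
  induction cs with
  | nil => rfl
  | cons c cs ih => simp only [List.map_cons, ← ih, nth_eq]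

theorem pdata_nil (cs : List Ch) (j : ℕ) : pdata cs [] j = [] := rfl

theorem pdata_cons (cs : List Ch) (p : ℕ) (ps : List ℕ) (j : ℕ) :
    pdata cs (p :: ps) j = (p, (col j cs, msk j)) :: pdata cs ps (j + 1) := rfl

theorem two_eq (e : ℕ) (cs : List Ch) : two e cs = cs.map (fun c => e * c.i2 % c.r) := by
  unfold two
  induction cs with
  | nil => rfl
  | cons c cs ih =>
    simp only [List.map_cons, ← ih]
    rfl

theorem rs_eq (cs : List Ch) : rs cs = cs.map Ch.r := by
  unfold rs
  induction cs with
  | nil => rfl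
  | cons c cs ih => simp only [List.map_cons, ← ih]

theorem tabs_eq (m : ℕ) (cs : List Ch) : tabs m cs = cs.map (tab m) := by
  unfold tabs
  induction cs with
  | nil => rfl
  | cons c cs ih => simp only [List.map_cons, ← ih]

theorem run_eq (cs : List Ch) (m e B ex : ℕ) : run cs m e B ex = true ↔
    cov full (tabs m cs) (two e cs) ex = true ∧
      br B 1 (rs cs) (two e cs) 0 (walk full B (rs cs) (tabs m cs) 20) (pdata cs primes 0) = true := by
  have h : run cs m e B ex = Bool.rec false
    (br B 1 (rs cs) (two e cs) 0 (walk full B (rs cs) (tabs m cs) 20) (pdata cs primes 0))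
    (cov full (tabs m cs) (two e cs) ex) := rfl
  rw [h]
  cases cov full (tabs m cs) (two e cs) ex <;> simp

end Pool.Agent.Lib.MP_baf44c_co.Q1.En
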