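import Pool.Agent.Lib.MP_baf44c_co.Q1.En.Check
import Pool.Agent.Lib.MP_baf44c_co.Q1.Defs

/-!
The Jacobi symbols of Pell numbers.
-/

set_option autoImplicit false
set_option maxRecDepth 100000

namespace Pool.Agent.Lib.MP_baf44c_co.Q1.En

/-- Jacobi symbol `(a / b)`, `b` odd: `0` for the value `1`, `1` for the value `-1`, a value `≥ 2` if
the fuel is not sufficient. -/
private noncomputable def jac (f : ℕ) : ℕ → ℕ → ℕ :=
  Nat.rec (motive := fun _ => ℕ → ℕ → ℕ) (fun _ _ => 2)
    (fun _ ih a b => Bool.rec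
      (Bool.rec
        (Nat.xor (ih (Nat.mod b a) a) (Nat.land (Nat.land (Nat.div a 2) (Nat.div b 2)) 1))
        (Nat.xor (ih (Nat.div a 2) b) (Nat.land (Nat.xor (Nat.div b 2) (Nat.div b 4)) 1))
        (Nat.beq (Nat.mod a 2) 0)) 0 (Nat.beq a 1)) f

/-- Test at one index: `x` is the residue of `P_n`. -/
private noncomputable def tst (p l s n x : ℕ) : Bool :=
  Bool.rec (Nat.beq (jac 200 x l) (bit s n)) (Bool.rec true (Nat.beq x 0) (Nat.beq n p))
    (Nat.beq (Nat.mod n p) 0)

/-- Tests at the indices `n, n + 1, …`. -/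
private noncomputable def lp (p l s k : ℕ) : ℕ → ℕ → ℕ → Bool :=
  Nat.rec (motive := fun _ => ℕ → ℕ → ℕ → Bool) (fun _ _ _ => true)
    (fun _ ih n x y => Bool.rec false (ih (Nat.succ n) y (Nat.mod (Nat.add (Nat.mul 2 y) x) l))
      (tst p l s n x)) k

private noncomputable def chB (c : Ch) : Bool :=
  Bool.rec false (Bool.rec false (lp c.p c.l c.s (Nat.mul 2 c.p) 0 0 1) (Nat.blt 1 c.l))
    (Nat.beq (Nat.mod c.l 2) 1)

private noncomputable def allC (l : List Ch) : Bool :=
  List.rec true (fun c _ ih => Bool.rec false ih (chB c)) l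

private theorem chs_test2 : allC chs = true := by decide +kernel

/-- `x` is the code of `j`. -/
private def R (x : ℕ) (j : ℤ) : Prop := (x = 0 → j = 1) ∧ (x = 1 → j = -1)

private theorem R_xor0 {x : ℕ} {j : ℤ} (h : R x j) : R (x ^^^ 0) j := by
  rw [Nat.xor_zero]; exact h

private theorem R_xor1 {x : ℕ} {j : ℤ} (h : R x j) : R (x ^^^ 1) (-j) := by
  constructor
  · intro h0
    have : x = 1 := by
      have h1 : x ^^^ 1 ^^^ 1 = x := Nat.xor_xor_cancel_right x 1
      rw [h0] at h1
      rw [← h1]; rfl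
    rw [h.2 this]; norm_num
  · intro h0
    have : x = 0 := by
      have h1 : x ^^^ 1 ^^^ 1 = x := Nat.xor_xor_cancel_right x 1
      rw [h0] at h1
      rw [← h1]; rfl
    rw [h.1 this]

private theorem land_one (a : ℕ) : a &&& 1 = a % 2 := Nat.and_one_is_mod a

private theorem xor_bit (b : ℕ) (hb : b % 2 = 1) :
    ((b / 2) ^^^ (b / 4)) &&& 1 = if b % 8 = 3 ∨ b % 8 = 5 then 1 else 0 := by
  rw [land_one, Nat.xor_mod_two_eq]
  have : b % 8 = 1 ∨ b % 8 = 3 ∨ b % 8 = 5 ∨ b % 8 = 7 := by omega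
  rcases this with h | h | h | h
  · rw [if_neg (by omega)]; omega
  · rw [if_pos (by omega)]; omega
  · rw [if_pos (by omega)]; omega
  · rw [if_neg (by omega)]; omega

private theorem and_bit (a b : ℕ) (ha : a % 2 = 1) (hb : b % 2 = 1) :
    ((a / 2) &&& (b / 2)) &&& 1 = if a % 4 = 3 ∧ b % 4 = 3 then 1 else 0 := by
  have h1 : ((a / 2) &&& (b / 2)) &&& 1 = ((a / 2) &&& 1) &&& ((b / 2) &&& 1) := by
    apply Nat.eq_of_testBit_eq
    intro i
    simp only [Nat.testBit_and]
    cases (a / 2).testBit i <;> cases (b / 2).testBit i <;> cases Nat.testBit 1 i <;> rfl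
  rw [h1, land_one, land_one]
  have ha4 : a % 4 = 1 ∨ a % 4 = 3 := by omega
  have hb4 : b % 4 = 1 ∨ b % 4 = 3 := by omega
  rcases ha4 with h | h <;> rcases hb4 with h' | h'
  · rw [if_neg (by omega), show a / 2 % 2 = 0 by omega, show b / 2 % 2 = 0 by omega]; rfl
  · rw [if_neg (by omega), show a / 2 % 2 = 0 by omega, show b / 2 % 2 = 1 by omega]; rfl
  · rw [if_neg (by omega), show a / 2 % 2 = 1 by omega, show b / 2 % 2 = 0 by omega]; rfl
  · rw [if_pos (by omega), show a / 2 % 2 = 1 by omega, show b / 2 % 2 = 1 by omega]; rfl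

private theorem jac_spec (f : ℕ) : ∀ a b : ℕ, b % 2 = 1 → R (jac f a b) (jacobiSym (a : ℤ) b) := by
  induction f with
  | zero =>
    intro a b _
    have h2 : jac 0 a b = 2 := rfl
    rw [h2]
    exact ⟨fun h => absurd h (by decide), fun h => absurd h (by decide)⟩
  | succ f ih =>
    intro a b hb
    have hj : jac (f + 1) a b = Bool.rec
      (Bool.rec
        (Nat.xor (jac f (Nat.mod b a) a) (Nat.land (Nat.land (Nat.div a 2) (Nat.div b 2)) 1))
        (Nat.xor (jac f (Nat.div a 2) b) (Nat.land (Nat.xor (Nat.div b 2) (Nat.div b 4)) 1))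
        (Nat.beq (Nat.mod a 2) 0)) 0 (Nat.beq a 1) := rfl
    rw [hj]
    cases h1 : Nat.beq a 1 with
    | true =>
      have ha : a = 1 := Nat.eq_of_beq_eq_true h1
      subst ha
      exact ⟨fun _ => by simp, fun h => absurd h (by simp)⟩
    | false =>
      have ha : a ≠ 1 := Nat.ne_of_beq_eq_false h1
      cases h2 : Nat.beq (Nat.mod a 2) 0 with
      | true =>
        have ha2 : a % 2 = 0 := Nat.eq_of_beq_eq_true h2
        have e := jacobiSym.even_odd (a := (a : ℤ)) (b := b) (by omega) hb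
        have e2 : ((a : ℤ) / 2) = ((a / 2 : ℕ) : ℤ) := by omega
        rw [e2] at e
        show R ((jac f (a / 2) b) ^^^ (((b / 2) ^^^ (b / 4)) &&& 1)) _
        rw [xor_bit b hb, ← e]
        by_cases h3 : b % 8 = 3 ∨ b % 8 = 5
        · rw [if_pos h3, if_pos h3]; exact R_xor1 (ih _ _ hb)
        · rw [if_neg h3, if_neg h3]; exact R_xor0 (ih _ _ hb)
      | false =>
        have ha2 : a % 2 = 1 := by
          have := Nat.ne_of_beq_eq_false h2
          have h4 : a % 2 ≠ 0 := this
          omega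
        have e := jacobiSym.quadratic_reciprocity_if ha2 hb
        have e2 : jacobiSym (b : ℤ) a = jacobiSym ((b % a : ℕ) : ℤ) a := by
          rw [jacobiSym.mod_left (b : ℤ) a]; norm_cast
        rw [e2] at e
        show R ((jac f (b % a) a) ^^^ (((a / 2) &&& (b / 2)) &&& 1)) _
        rw [and_bit a b ha2 hb, ← e]
        by_cases h3 : a % 4 = 3 ∧ b % 4 = 3
        · rw [if_pos h3, if_pos h3]; exact R_xor1 (ih _ _ ha2)
        · rw [if_neg h3, if_neg h3]; exact R_xor0 (ih _ _ ha2)

private theorem brec_true {x y : Bool} (h : (Bool.rec false y x : Bool) = true) :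
    x = true ∧ y = true := by
  cases x
  · have h' : false = true := h
    exact absurd h' (by decide)
  · exact ⟨rfl, h⟩

private theorem lp_spec (p l s : ℕ) (k : ℕ) : ∀ n x y : ℕ, x = pell n % l → y = pell (n + 1) % l →
    lp p l s k n x y = true → ∀ i < k, tst p l s (n + i) (pell (n + i) % l) = true := by
  induction k with
  | zero => intro n x y _ _ _ i hi; omega
  | succ k ih =>
    intro n x y hx hy h i hi
    have h' : (Bool.rec false (lp p l s k (Nat.succ n) y (Nat.mod (Nat.add (Nat.mul 2 y) x) l))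
      (tst p l s n x) : Bool) = true := h
    obtain ⟨h1, h2⟩ := brec_true h'
    rcases Nat.eq_zero_or_pos i with hi0 | hi0
    · subst hi0
      rw [Nat.add_zero, ← hx]; exact h1
    · obtain ⟨j, rfl⟩ : ∃ j, i = j + 1 := ⟨i - 1, by omega⟩
      have h3 : Nat.mod (Nat.add (Nat.mul 2 y) x) l = pell (n + 1 + 1) % l := by
        show (2 * y + x) % l = pell (n + 2) % l
        have : pell (n + 2) = 2 * pell (n + 1) + pell n := rfl
        rw [this, hx, hy]
        simp [Nat.add_mod, Nat.mul_mod]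
      have := ih (n + 1) y _ hy h3 h2 j (by omega)
      rw [show n + (j + 1) = n + 1 + j by omega]
      exact this

private theorem allC_spec {l : List Ch} (h : allC l = true) : ∀ c ∈ l, chB c = true := by
  induction l with
  | nil => intro c hc; simp at hc
  | cons a l ih =>
    have h' : (Bool.rec false (allC l) (chB a) : Bool) = true := h
    obtain ⟨h1, h2⟩ := brec_true h'
    intro c hc
    rcases List.mem_cons.1 hc with hc | hc
    · rw [hc]; exact h1
    · exact ih h2 c hc

private theorem testBit_bit (s n : ℕ) : bit s n = if s.testBit n then 1 else 0 := by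
  have h : bit s n = (s >>> n) % 2 := Nat.and_one_is_mod _
  rw [h, Nat.testBit_eq_decide_div_mod_eq, Nat.shiftRight_eq_div_pow]
  rcases Nat.mod_two_eq_zero_or_one (s / 2 ^ n) with h0 | h0 <;> rw [h0] <;> rfl

/-- A kernel computation: for each of the `30` characters run through `n < 2 c.p` with the pair
`(P_n mod l, P_(n+1) mod l)` (`c.p < 200` or so) and compute the Jacobi symbol with a fuel based version of the
usual algorithm (remainders, factors `2`, quadratic reciprocity; compare `jacobiSym` lemmas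
`jacobiSym.quadratic_reciprocity'`, `jacobiSym.at_two`, `ZMod.χ₈_nat_eq_if_mod_eight`,
`jacobiSym.mod_left`); prove the correctness of the algorithm and evaluate by `decide +kernel`. Write the
functions with primitive recursors (`Nat.rec`, `Bool.rec`) or structural recursion on fuel so that the kernel
evaluates them fast; split over several theorems if needed. -/
theorem chs_jac : ∀ c ∈ chs, c.l % 2 = 1 ∧ 1 < c.l ∧ c.l ∣ pell c.p ∧ ∀ n < 2 * c.p, ¬ c.p ∣ n →
    jacobiSym (pell n : ℤ) c.l = if c.s.testBit n then -1 else 1 := by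
  intro c hc
  obtain ⟨h1, h2⟩ := brec_true (allC_spec chs_test2 c hc)
  obtain ⟨h2, h3⟩ := brec_true h2
  have hl2 : c.l % 2 = 1 := Nat.eq_of_beq_eq_true h1
  have hl : 1 < c.l := Nat.le_of_ble_eq_true h2
  have h4 := lp_spec c.p c.l c.s (2 * c.p) 0 0 1 (by simp [pell]) (by
    show 1 = 1 % c.l
    rw [Nat.mod_eq_of_lt hl]) h3
  have hp : 0 < c.p := by have := (chs_prime c hc).2; omega
  refine ⟨hl2, hl, ?_, ?_⟩
  · have h5 := h4 c.p (by omega)
    rw [Nat.zero_add] at h5
    have h6 : Nat.beq (Nat.mod c.p c.p) 0 = true := by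
      rw [show Nat.mod c.p c.p = c.p % c.p from rfl, Nat.mod_self]; rfl
    have h7 : Nat.beq c.p c.p = true := by
      cases h : Nat.beq c.p c.p with
      | true => rfl
      | false => exact absurd rfl (Nat.ne_of_beq_eq_false h)
    unfold tst at h5
    rw [h6] at h5
    have h8 : (Bool.rec true (Nat.beq (pell c.p % c.l) 0) (Nat.beq c.p c.p) : Bool) = true := h5
    rw [h7] at h8
    exact Nat.dvd_of_mod_eq_zero (Nat.eq_of_beq_eq_true h8)
  · intro n hn hpn
    have h5 := h4 n hn
    rw [Nat.zero_add] at h5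
    have h6 : Nat.beq (Nat.mod n c.p) 0 = false := by
      cases h : Nat.beq (Nat.mod n c.p) 0 with
      | false => rfl
      | true => exact absurd (Nat.dvd_of_mod_eq_zero (Nat.eq_of_beq_eq_true h)) hpn
    unfold tst at h5
    rw [h6] at h5
    have h7 : jac 200 (pell n % c.l) c.l = bit c.s n := Nat.eq_of_beq_eq_true h5
    have h8 := jac_spec 200 (pell n % c.l) c.l hl2
    rw [h7, testBit_bit] at h8
    have h9 : jacobiSym (pell n : ℤ) c.l = jacobiSym ((pell n % c.l : ℕ) : ℤ) c.l := by
      rw [jacobiSym.mod_left (pell n : ℤ) c.l]; norm_cast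
    rw [h9]
    by_cases hb : c.s.testBit n = true
    · rw [if_pos hb] at h8 ⊢; exact h8.2 rfl
    · rw [if_neg hb] at h8 ⊢; exact h8.1 rfl

private theorem pell_coprime (n : ℕ) : Nat.Coprime (pell n) (pell (n + 1)) := by
  induction n with
  | zero => simp [pell]
  | succ n ih =>
    have : pell (n + 1 + 1) = 2 * pell (n + 1) + pell n := rfl
    rw [this]
    have h2 : Nat.Coprime (pell (n + 1)) (pell n) := ih.symm
    have := (Nat.coprime_mul_right_add_right (pell (n + 1)) (pell n) 2).2 h2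
    exact this

private theorem pell_add (m n : ℕ) :
    pell (m + 1 + n) = pell (m + 1) * pell (n + 1) + pell m * pell n := by
  induction n using Nat.twoStepInduction with
  | zero => simp [pell]
  | one =>
    show pell (m + 2) = _
    have : pell (m + 2) = 2 * pell (m + 1) + pell m := rfl
    rw [this]
    simp [pell]; ring
  | more n ih1 ih2 =>
    have h1 : pell (m + 1 + (n + 2)) = 2 * pell (m + 1 + (n + 1)) + pell (m + 1 + n) := rfl
    have h2 : pell (n + 2 + 1) = 2 * pell (n + 1 + 1) + pell (n + 1) := rfl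
    have h3 : pell (n + 2) = 2 * pell (n + 1) + pell n := rfl
    have h4 : pell (n + 1 + 1) = 2 * pell (n + 1) + pell n := rfl
    rw [h1, ih1, ih2, h2, h4]
    ring

/-- `P_(n + p) ≡ P_(p + 1) P_n` mod `l` as `l ∣ P_p`, so the symbol has period `2 p` in `n` (for
`p ∤ n`; `P_(p+1)` is prime to `l`). -/
theorem jac_pell {c : Ch} (hc : c ∈ chs) {n : ℕ} (hn : ¬ c.p ∣ n) :
    jacobiSym (pell n : ℤ) c.l = if c.s.testBit (n % (2 * c.p)) then -1 else 1 := by
  obtain ⟨hl2, hl, hdvd, hjac⟩ := chs_jac c hc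
  have hp : 0 < c.p := by have := (chs_prime c hc).2; omega
  obtain ⟨q, hq⟩ : ∃ q, c.p = q + 1 := ⟨c.p - 1, by omega⟩
  have hstep : ∀ m, jacobiSym (pell (m + c.p) : ℤ) c.l =
      jacobiSym (pell (c.p + 1) : ℤ) c.l * jacobiSym (pell m : ℤ) c.l := by
    intro m
    rw [← jacobiSym.mul_left]
    apply jacobiSym.mod_left'
    rcases Nat.eq_zero_or_pos m with hm | hm
    · subst hm
      rw [Nat.zero_add]
      obtain ⟨t, ht⟩ := hdvd
      rw [ht]
      simp [pell]
    · obtain ⟨m, rfl⟩ : ∃ m', m = m' + 1 := ⟨m - 1, by omega⟩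
      rw [pell_add m c.p]
      obtain ⟨t, ht⟩ := hdvd
      rw [ht]
      push_cast
      rw [show (pell (m + 1) : ℤ) * (pell (c.p + 1) : ℤ) + (pell m : ℤ) * ((c.l : ℤ) * (t : ℤ)) =
        (pell (c.p + 1) : ℤ) * (pell (m + 1) : ℤ) + (c.l : ℤ) * ((pell m : ℤ) * t) by ring]
      exact Int.add_mul_emod_self_left _ _ _
  have hcop : Int.gcd (pell (c.p + 1) : ℤ) c.l = 1 := by
    rw [Int.gcd_natCast_natCast]
    have h1 := (pell_coprime c.p).symm
    exact Nat.Coprime.coprime_dvd_right hdvd h1
  have hsq := jacobiSym.sq_one hcop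
  have hper : ∀ m, jacobiSym (pell (m + 2 * c.p) : ℤ) c.l = jacobiSym (pell m : ℤ) c.l := by
    intro m
    rw [show m + 2 * c.p = m + c.p + c.p by ring, hstep, hstep, ← mul_assoc, ← sq, hsq, one_mul]
  have hperk : ∀ k m, jacobiSym (pell (m + 2 * c.p * k) : ℤ) c.l = jacobiSym (pell m : ℤ) c.l := by
    intro k
    induction k with
    | zero => intro m; simp
    | succ k ih =>
      intro m
      rw [show m + 2 * c.p * (k + 1) = (m + 2 * c.p * k) + 2 * c.p by ring, hper, ih]
  have h1 := hperk (n / (2 * c.p)) (n % (2 * c.p))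
  rw [Nat.mod_add_div] at h1
  rw [h1]
  apply hjac _ (Nat.mod_lt _ (by omega))
  intro h
  apply hn
  have h2 : c.p ∣ 2 * c.p * (n / (2 * c.p)) := ⟨2 * (n / (2 * c.p)), by ring⟩
  have := Nat.dvd_add h h2
  rwa [Nat.mod_add_div] at this

/-- The function whose products give `PA N`. -/
def Fm (m : ℕ) (n : ℕ) : ℕ := if m = 0 then pell n else pell n * pell (2 * n)

private theorem bit_testBit (s n : ℕ) : (bit s n).testBit 0 = s.testBit n := by
  rw [testBit_bit]
  cases s.testBit n <;> rfl

theorem jac_Fm {c : Ch} (hc : c ∈ chs) (m : ℕ) {n : ℕ} (hn : ¬ c.p ∣ n) :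
    jacobiSym (Fm m n : ℤ) c.l = if (val c m n).testBit 0 then -1 else 1 := by
  unfold Fm val
  cases hm : Nat.beq m 0 with
  | true =>
    have hm0 : m = 0 := Nat.eq_of_beq_eq_true hm
    rw [if_pos hm0]
    show _ = if (bit c.s (n % (2 * c.p))).testBit 0 then -1 else 1
    rw [bit_testBit]
    exact jac_pell hc hn
  | false =>
    have hm0 : m ≠ 0 := Nat.ne_of_beq_eq_false hm
    rw [if_neg hm0]
    show _ = if (Nat.xor (bit c.s (n % (2 * c.p))) (bit c.s ((2 * n) % (2 * c.p)))).testBit 0
      then -1 else 1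
    have hn2 : ¬ c.p ∣ 2 * n := by
      intro h
      rcases ((chs_prime c hc).1.dvd_mul).1 h with h | h
      · have := Nat.le_of_dvd (by norm_num) h
        have := (chs_prime c hc).2
        omega
      · exact hn h
    have hx : (Nat.xor (bit c.s (n % (2 * c.p))) (bit c.s ((2 * n) % (2 * c.p)))).testBit 0 =
        (c.s.testBit (n % (2 * c.p)) ^^ c.s.testBit ((2 * n) % (2 * c.p))) := by
      show ((bit c.s (n % (2 * c.p))) ^^^ (bit c.s ((2 * n) % (2 * c.p)))).testBit 0 = _
      rw [Nat.testBit_xor, bit_testBit, bit_testBit]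
    rw [hx]
    push_cast
    rw [jacobiSym.mul_left, jac_pell hc hn, jac_pell hc hn2]
    cases c.s.testBit (n % (2 * c.p)) <;> cases c.s.testBit ((2 * n) % (2 * c.p)) <;> simp

end Pool.Agent.Lib.MP_baf44c_co.Q1.En
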