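import Pool.Agent.Lib.MP_baf44c_co.Q1.En.Vf
import Pool.Agent.Lib.MP_baf44c_co.Q1.Defs

/-!
Products over subsets of a list of primes.
-/

set_option autoImplicit false

namespace Pool.Agent.Lib.MP_baf44c_co.Q1.En

/-- The product of `F (n ∏ S)` over the subsets `S` of the list. -/
def prF (F : ℕ → ℕ) : List ℕ → ℕ → ℕ
  | [], n => F n
  | q :: L, n => prF F L n * prF F L (q * n)

/-- The Jacobi symbol is multiplicative. -/
theorem jac_prF {F : ℕ → ℕ} {b : ℕ → ℕ} {l p : ℕ} (hp : p.Prime)
    (h : ∀ n, ¬ p ∣ n → jacobiSym (F n : ℤ) l = if (b n).testBit 0 then -1 else 1) (L : List ℕ)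
    (hL : ∀ q ∈ L, ¬ p ∣ q) {n : ℕ} (hn : ¬ p ∣ n) :
    jacobiSym (prF F L n : ℤ) l = if Xf b L n then -1 else 1 := by
  induction L generalizing n with
  | nil => exact h n hn
  | cons q L ih =>
    have hq : ¬ p ∣ q * n := fun hd => by
      rcases hp.dvd_mul.1 hd with h1 | h1
      · exact hL q List.mem_cons_self h1
      · exact hn h1
    have hL' : ∀ q ∈ L, ¬ p ∣ q := fun r hr => hL r (List.mem_cons_of_mem _ hr)
    have e : ((prF F (q :: L) n : ℕ) : ℤ) = (prF F L n : ℤ) * (prF F L (q * n) : ℤ) := by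
      simp [prF]
    have e2 : Xf b (q :: L) n = (Xf b L n).xor (Xf b L (q * n)) := rfl
    rw [e, jacobiSym.mul_left, ih hL' hn, ih hL' hq, e2]
    cases Xf b L n <;> cases Xf b L (q * n) <;> simp

private theorem prF_eq (F : ℕ → ℕ) {L : List ℕ} (hL : L.Nodup) (n : ℕ) :
    prF F L n = ∏ S ∈ L.toFinset.powerset, F (n * ∏ q ∈ S, q) := by
  induction L generalizing n with
  | nil => simp [prF]
  | cons q L ih =>
    have hq : q ∉ L.toFinset := by
      rw [List.mem_toFinset]
      exact (List.nodup_cons.1 hL).1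
    have hL' := (List.nodup_cons.1 hL).2
    have e : prF F (q :: L) n = prF F L n * prF F L (q * n) := rfl
    rw [e, List.toFinset_cons, Finset.prod_powerset_insert hq, ih hL', ih hL']
    congr 1
    refine Finset.prod_congr rfl fun S hS => ?_
    have hqS : q ∉ S := fun h => hq (Finset.mem_powerset.1 hS h)
    rw [Finset.prod_insert hqS]
    ring_nf

private theorem sqf_prod {S : Finset ℕ} (hS : ∀ q ∈ S, q.Prime) : Squarefree (∏ q ∈ S, q) := by
  induction S using Finset.induction_on with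
  | empty => simp
  | insert a S ha ih =>
    rw [Finset.prod_insert ha]
    have hp := hS a (Finset.mem_insert_self _ _)
    have hS' : ∀ q ∈ S, q.Prime := fun q hq => hS q (Finset.mem_insert_of_mem hq)
    rw [Nat.squarefree_mul_iff]
    refine ⟨?_, hp.prime.squarefree, ih hS'⟩
    refine Nat.Coprime.prod_right fun q hq => ?_
    rw [Nat.coprime_primes hp (hS' q hq)]
    rintro rfl
    exact ha hq

private theorem prod_dvd_prod {S T : Finset ℕ} (h : S ⊆ T) : (∏ q ∈ S, q) ∣ ∏ q ∈ T, q :=
  Finset.prod_dvd_prod_of_subset _ _ _ h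

/-- The squarefree divisors of `n * L.prod` are the products of subsets of `L` (all prime factors are in
`L`), and for a subset `S` the quotient is `n` times the product of the complement. Suggestion: first
show `prF F L n = ∏ S ∈ L.toFinset.powerset, F (n * ∏ q ∈ S, q)` by induction on `L`. -/
theorem PA_eq {L : List ℕ} (hL : L.Nodup) (hp : ∀ q ∈ L, q.Prime) {n : ℕ} (hn : 0 < n)
    (h : ∀ q : ℕ, q.Prime → q ∣ n → q ∈ L) : PA (n * L.prod) = prF pell L n := by
  have hT : ∀ q ∈ L.toFinset, q.Prime := fun q hq => hp q (List.mem_toFinset.1 hq)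
  have hprod : L.prod = ∏ q ∈ L.toFinset, q := by
    rw [List.prod_toFinset _ hL]
    simp
  have hpos : ∀ S : Finset ℕ, S ⊆ L.toFinset → 0 < ∏ q ∈ S, q := fun S hS =>
    Finset.prod_pos fun q hq => (hT q (hS hq)).pos
  rw [prF_eq pell hL, PA, hprod]
  symm
  refine Finset.prod_bij' (fun S _ => ∏ q ∈ L.toFinset \ S, q)
    (fun d _ => L.toFinset \ d.primeFactors) ?_ ?_ ?_ ?_ ?_
  · intro S hS
    rw [Finset.mem_filter, Nat.mem_divisors]
    refine ⟨⟨(prod_dvd_prod Finset.sdiff_subset).trans (Dvd.intro_left _ rfl), ?_⟩,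
      sqf_prod fun q hq => hT q (Finset.sdiff_subset hq)⟩
    exact (Nat.mul_pos hn (hpos _ (Finset.Subset.refl _))).ne'
  · intro d hd
    exact Finset.mem_powerset.2 Finset.sdiff_subset
  · intro S hS
    have e : (∏ q ∈ L.toFinset \ S, q).primeFactors = L.toFinset \ S :=
      Nat.primeFactors_prod fun q hq => hT q (Finset.sdiff_subset hq)
    simp only [e]
    exact Finset.sdiff_sdiff_eq_self (Finset.mem_powerset.1 hS)
  · intro d hd
    rw [Finset.mem_filter, Nat.mem_divisors] at hd
    have hsub : d.primeFactors ⊆ L.toFinset := by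
      intro q hq
      have hqp := Nat.prime_of_mem_primeFactors hq
      have hqd := (Nat.dvd_of_mem_primeFactors hq).trans hd.1.1
      rcases hqp.dvd_mul.1 hqd with h1 | h1
      · exact List.mem_toFinset.2 (h q hqp h1)
      · obtain ⟨r, hr, h2⟩ := (hqp.prime.dvd_finsetProd_iff _).1 h1
        rw [(Nat.prime_dvd_prime_iff_eq hqp (hT r hr)).1 h2]
        exact hr
    simp only [Finset.sdiff_sdiff_eq_self hsub]
    exact Nat.prod_primeFactors_of_squarefree hd.2
  · intro S hS
    have hS' := Finset.mem_powerset.1 hS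
    have e : (∏ q ∈ L.toFinset \ S, q) * (∏ q ∈ S, q) = ∏ q ∈ L.toFinset, q :=
      Finset.prod_sdiff hS'
    congr 1
    rw [← e]
    refine (Nat.div_eq_of_eq_mul_left (hpos _ Finset.sdiff_subset) ?_).symm
    ring

private theorem prF_mul (F G : ℕ → ℕ) (L : List ℕ) (n : ℕ) :
    prF (fun k => F k * G k) L n = prF F L n * prF G L n := by
  induction L generalizing n with
  | nil => rfl
  | cons q L ih =>
    have e : ∀ F : ℕ → ℕ, prF F (q :: L) n = prF F L n * prF F L (q * n) := fun _ => rfl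
    rw [e, e, e, ih, ih]
    ring

private theorem prF_two (F : ℕ → ℕ) (L : List ℕ) (n : ℕ) :
    prF (fun k => F (2 * k)) L n = prF F L (2 * n) := by
  induction L generalizing n with
  | nil => rfl
  | cons q L ih =>
    have e : ∀ (F : ℕ → ℕ) (n : ℕ), prF F (q :: L) n = prF F L n * prF F L (q * n) := fun _ _ => rfl
    rw [e, e, ih, ih, Nat.mul_left_comm]

/-- `PA_eq` for the list `2 :: L`. -/
theorem PA_two {L : List ℕ} (hL : L.Nodup) (hp : ∀ q ∈ L, q.Prime) (h2 : 2 ∉ L) {n : ℕ} (hn : 0 < n)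
    (h : ∀ q : ℕ, q.Prime → q ≠ 2 → q ∣ n → q ∈ L) :
    PA (2 * n * L.prod) = prF (fun k => pell k * pell (2 * k)) L n := by
  have e : 2 * n * L.prod = n * (2 :: L).prod := by
    rw [List.prod_cons]
    ring
  rw [e, PA_eq (List.nodup_cons.2 ⟨h2, hL⟩) ?_ hn ?_]
  · have e2 : prF pell (2 :: L) n = prF pell L n * prF pell L (2 * n) := rfl
    rw [e2, prF_mul pell (fun k => pell (2 * k)), prF_two pell]
  · intro q hq
    rcases List.mem_cons.1 hq with rfl | hq
    · exact Nat.prime_two
    · exact hp q hq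
  · intro q hq hqn
    by_cases h3 : q = 2
    · rw [h3]
      exact List.mem_cons_self
    · exact List.mem_cons_of_mem _ (h q hq h3 hqn)

end Pool.Agent.Lib.MP_baf44c_co.Q1.En
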