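import Pool.Agent.Lib.MP_baf44c_co.Q1.En.Data

/-!
The enumeration for orders exactly divisible by `2 ^ 4`, evaluated in the kernel.
-/

set_option autoImplicit false
set_option maxRecDepth 100000

namespace Pool.Agent.Lib.MP_baf44c_co.Q1.En

theorem run4 : run chs 2 3 20224 1 = true := by decide +kernel

end Pool.Agent.Lib.MP_baf44c_co.Q1.En
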