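import Pool.Agent.Lib.MP_baf44c_co.Q1.En.Walk
import Pool.Agent.Lib.MP_baf44c_co.Q1.En.Jac
import Pool.Agent.Lib.MP_baf44c_co.Q1.En.Prod
import Pool.Agent.Lib.MP_baf44c_co.Q1.En.Run0
import Pool.Agent.Lib.MP_baf44c_co.Q1.En.Run1
import Pool.Agent.Lib.MP_baf44c_co.Q1.En.Run2
import Pool.Agent.Lib.MP_baf44c_co.Q1.En.Run3
import Pool.Agent.Lib.MP_baf44c_co.Q1.En.Run4
import Pool.Agent.Lib.MP_baf44c_co.Q1.En.Run5
import Pool.Agent.Lib.MP_baf44c_co.Q1.En.Run6
import Pool.Agent.Lib.MP_baf44c_co.Q1.En.Run7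

/-!
The products `PA N` are not squares.
-/

set_option autoImplicit false

namespace Pool.Agent.Lib.MP_baf44c_co.Q1.En

private theorem primes_prime : ∀ j < 16, (primes.getD j 0).Prime := by
  intro j hj
  interval_cases j <;> norm_num [primes]

private theorem primes_inj : ∀ i < 16, ∀ j < 16, primes.getD i 0 = primes.getD j 0 → i = j := by
  decide

private theorem primes_le : ∀ j < 16, primes.getD j 0 ≤ 59 := by
  decide

private theorem primes_ne_two : ∀ j < 16, primes.getD j 0 ≠ 2 := by
  decide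

private theorem idx_of_prime {q : ℕ} (hq : q.Prime) (h2 : q ≠ 2) (h59 : q ≤ 59) :
    ∃ j < 16, primes.getD j 0 = q := by
  interval_cases q
  all_goals first
    | decide
    | exact absurd rfl h2
    | (exfalso; revert hq; norm_num)

private theorem idx_mem {j : ℕ} (hj : j < 16) : primes.getD j 0 ∈ primes := by
  revert j
  decide

private theorem mem_sel_prime {q r : ℕ} (h : q ∈ sel primes.reverse r) :
    q.Prime ∧ q ≤ 59 ∧ q ≠ 2 ∧ q ∈ primes := by
  obtain ⟨j, hj, h1, -⟩ := mem_sel.1 h
  rw [← h1]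
  exact ⟨primes_prime j hj, primes_le j hj, primes_ne_two j hj, idx_mem hj⟩

/-- An odd number `n` with prime factors `≤ 59` is `n₀ * (sel primes.reverse r).prod` with the
primes of `n₀` selected by `r` (`exists_mask` for the set of the indices of the primes dividing `n`). -/
theorem exists_rad {n : ℕ} (hn : n % 2 = 1) (h59 : ∀ q : ℕ, q.Prime → q ∣ n → q ≤ 59) :
    ∃ n₀ r : ℕ, r < 2 ^ 16 ∧ n = n₀ * (sel primes.reverse r).prod ∧
      (∀ q : ℕ, q.Prime → (q ∣ n ↔ q ∈ sel primes.reverse r)) := by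
  obtain ⟨r, hr, hb⟩ := exists_mask (fun j => decide (primes.getD j 0 ∣ n))
  have hmem : ∀ q : ℕ, q.Prime → (q ∣ n ↔ q ∈ sel primes.reverse r) := by
    intro q hq
    rw [mem_sel]
    constructor
    · intro hd
      have h2 : q ≠ 2 := by
        rintro rfl
        omega
      obtain ⟨j, hj, h1⟩ := idx_of_prime hq h2 (h59 q hq hd)
      refine ⟨j, hj, h1, ?_⟩
      rw [hb j hj, h1]
      simpa using hd
    · rintro ⟨j, hj, h1, h2⟩
      rw [hb j hj, h1] at h2
      simpa using h2
  have hdvd : (sel primes.reverse r).prod ∣ n := by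
    have e : (sel primes.reverse r).prod = ∏ q ∈ (sel primes.reverse r).toFinset, q := by
      rw [List.prod_toFinset _ (sel_nodup r)]
      simp
    rw [e]
    refine Finset.prod_primes_dvd n ?_ ?_
    · intro q hq
      exact (mem_sel_prime (List.mem_toFinset.1 hq)).1.prime
    · intro q hq
      have h := List.mem_toFinset.1 hq
      exact (hmem q (mem_sel_prime h).1).2 h
  obtain ⟨n₀, h⟩ := hdvd
  exact ⟨n₀, r, hr, by rw [h, mul_comm], hmem⟩

/-- If `Xf` is `1` for some character then the product is not a square: `jac_prF`, `jac_Fm`; a square has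
Jacobi symbol `≥ 0`. -/
theorem not_sq {m r n : ℕ} (hn : ∀ p : ℕ, p.Prime → 59 < p → ¬ p ∣ n)
    (h : ∃ c ∈ chs, Xf (val c m) (sel primes.reverse r) n = true) :
    ¬ IsSquare (prF (Fm m) (sel primes.reverse r) n) := by
  obtain ⟨c, hc, hX⟩ := h
  obtain ⟨hp, h59⟩ := chs_prime c hc
  have hj := jac_prF (F := Fm m) (b := val c m) (l := c.l) hp (fun k hk => jac_Fm hc m hk)
    (sel primes.reverse r) (fun q hq hd => by
      obtain ⟨h1, h2, -, -⟩ := mem_sel_prime hq
      have := Nat.le_of_dvd h1.pos hd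
      omega) (hn c.p hp h59)
  rw [if_pos hX] at hj
  rintro ⟨k, hk⟩
  rw [hk] at hj
  push_cast at hj
  rw [jacobiSym.mul_left] at hj
  nlinarith [mul_self_nonneg (jacobiSym (k : ℤ) c.l)]

/-- Write `N = 2 ^ k n`, `n` odd, `n = n₀ ∏ L` as in `exists_rad`, `n₀ ≤ 20224` by `hodd` (the primes of
`n₀` divide `N / n₀ = 2 ^ k ∏ L`). For `k = 0` use `PA_eq`, `run0` (mode `0`, `e = 0`; `17 = 2 ^ 0 + 2 ^ 4` has the bits `0`
and `4`, that is `N = 1` and `N = 7`), for `k = 1` use `PA_two`, `run1` (mode `1`, `e = 0`;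
`9` has the bits `0` and `3`, that is `N = 2` and `N = 30`), for `2 ≤ k ≤ 7` use `PA_two` with `2 ^ (k - 1) n₀`
and `run2`, …, `run7` (mode `2`, `e = k - 1`; bit `0`, that is `N = 2 ^ k`), always with `run_sound`. -/
theorem enum_gen {N : ℕ} (hN : 0 < N) (htwo : ∀ j : ℕ, N ≠ 2 ^ j) (h7 : N ≠ 7) (h30 : N ≠ 30)
    (h59 : ∀ q : ℕ, q.Prime → q ∣ N → q ≤ 59) (hk : N.factorization 2 ≤ 7)
    (hodd : ∀ n : ℕ, n ∣ N → Odd n → (∀ q : ℕ, q.Prime → q ∣ n → q ∣ N / n) → n ≤ 20224) :
    ¬ IsSquare (PA N) := by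
  obtain ⟨k, hkk⟩ : ∃ k, k = N.factorization 2 := ⟨_, rfl⟩
  obtain ⟨n, hnn⟩ : ∃ n, n = N / 2 ^ N.factorization 2 := ⟨_, rfl⟩
  have hNn : N = 2 ^ k * n := by
    rw [hkk, hnn]
    exact (Nat.ordProj_mul_ordCompl_eq_self N 2).symm
  have hnodd : n % 2 = 1 := by
    have h : ¬ 2 ∣ n := by
      rw [hnn]
      exact Nat.not_dvd_ordCompl Nat.prime_two hN.ne'
    omega
  have hk7 : k ≤ 7 := by
    rw [hkk]
    exact hk
  clear hkk hnn hk
  obtain ⟨n₀, r, hr, hn0, hmem⟩ := exists_rad hnodd
    (fun q hq hd => h59 q hq (hNn ▸ Dvd.dvd.mul_left hd _))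
  have hn0pos : 0 < n₀ := by
    rcases Nat.eq_zero_or_pos n₀ with h | h
    · subst h
      simp at hn0
      omega
    · exact h
  have hprod : 0 < (sel primes.reverse r).prod := by
    rcases Nat.eq_zero_or_pos (sel primes.reverse r).prod with h | h
    · rw [h] at hn0
      simp at hn0
      omega
    · exact h
  have hn0n : n₀ ∣ n := ⟨_, hn0⟩
  have hNn0 : N = n₀ * (2 ^ k * (sel primes.reverse r).prod) := by
    rw [hNn]
    conv_lhs => rw [hn0]
    ring
  have hB : n₀ ≤ 20224 := by
    refine hodd n₀ ⟨_, hNn0⟩ ?_ ?_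
    · have ho : Odd n := Nat.odd_iff.2 hnodd
      rw [hn0] at ho
      exact (Nat.odd_mul.1 ho).1
    · intro q hq hd
      have h1 : q ∈ sel primes.reverse r := (hmem q hq).1 (hd.trans hn0n)
      have h2 : N / n₀ = 2 ^ k * (sel primes.reverse r).prod := by
        rw [hNn0]
        exact Nat.mul_div_cancel_left _ hn0pos
      rw [h2]
      exact Dvd.dvd.mul_left (List.dvd_prod h1) _
  have hL : ∀ q : ℕ, q.Prime → q ∣ n₀ → q ∈ sel primes.reverse r := fun q hq hd =>
    (hmem q hq).1 (hd.trans hn0n)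
  have hq : ∀ q : ℕ, q.Prime → q ∣ n₀ → q ∈ primes := fun q hq hd =>
    (mem_sel_prime (hL q hq hd)).2.2.2
  have hnr : ∀ i < 16, primes.getD i 0 ∣ n₀ → r.testBit i = true := by
    intro i hi hd
    obtain ⟨j, hj, h1, h2⟩ := mem_sel.1 (hL _ (primes_prime i hi) hd)
    rw [← primes_inj j hj i hi h1]
    exact h2
  have hbig : ∀ e p : ℕ, p.Prime → 59 < p → ¬ p ∣ 2 ^ e * n₀ := by
    intro e p hp h hd
    rcases hp.dvd_mul.1 hd with h1 | h1
    · have := (Nat.prime_dvd_prime_iff_eq hp Nat.prime_two).1 (hp.dvd_of_dvd_pow h1)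
      omega
    · have := (mem_sel_prime (hL p hp h1)).2.1
      omega
  have hLp : ∀ q ∈ sel primes.reverse r, q.Prime := fun q hq => (mem_sel_prime hq).1
  have hL2 : 2 ∉ sel primes.reverse r := fun h => (mem_sel_prime h).2.2.1 rfl
  have key : ∀ m e ex : ℕ, 2 ^ e % 2 = par m → run chs m e 20224 ex = true →
      (n₀ = 1 → ex.testBit r = false) →
      ¬ IsSquare (prF (Fm m) (sel primes.reverse r) (2 ^ e * n₀)) := by
    intro m e ex he hrun hex
    exact not_sq (hbig e) (run_sound chs_good he hrun hn0pos hq hB hr hnr hex)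
  rcases Nat.eq_zero_or_pos k with hk0 | hkpos
  · subst hk0
    have e1 : PA N = prF (Fm 0) (sel primes.reverse r) (2 ^ 0 * n₀) := by
      have e2 : N = n₀ * (sel primes.reverse r).prod := by
        rw [hNn0]
        ring
      rw [e2, PA_eq (sel_nodup r) hLp hn0pos hL, pow_zero, one_mul]
      rfl
    rw [e1]
    refine key 0 0 17 (by rfl) run0 ?_
    intro h1
    by_contra h
    have h17 : (17 : ℕ).testBit r = true := by simpa using h
    have hr5 : r < 5 := by
      by_contra h5
      have : (17 : ℕ).testBit r = false := Nat.testBit_lt_two_pow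
        (lt_of_lt_of_le (by norm_num : 17 < 2 ^ 5) (Nat.pow_le_pow_right (by norm_num) (by omega)))
      rw [this] at h17
      exact absurd h17 (by decide)
    have hr04 : r = 0 ∨ r = 4 := by
      interval_cases r <;> first | decide | (exact absurd h17 (by decide))
    rcases hr04 with h0 | h4
    · apply htwo 0
      rw [hNn0, h1, h0]
      decide
    · apply h7
      rw [hNn0, h1, h4]
      decide
  · have e1 : PA N = prF (Fm 1) (sel primes.reverse r) (2 ^ (k - 1) * n₀) := by
      have e2 : N = 2 * (2 ^ (k - 1) * n₀) * (sel primes.reverse r).prod := by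
        rw [hNn0]
        obtain ⟨k', rfl⟩ : ∃ k', k = k' + 1 := ⟨k - 1, by omega⟩
        rw [Nat.add_sub_cancel, pow_succ]
        ring
      rw [e2, PA_two (sel_nodup r) hLp hL2 (by positivity)]
      · rfl
      · intro q hq hq2 hd
        rcases hq.dvd_mul.1 hd with h1 | h1
        · exact absurd ((Nat.prime_dvd_prime_iff_eq hq Nat.prime_two).1
            (hq.dvd_of_dvd_pow h1)) hq2
        · exact hL q hq h1
    have e3 : Fm 2 = Fm 1 := rfl
    rcases Nat.lt_or_ge k 2 with hk2 | hk2
    · have hk1 : k = 1 := by omega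
      subst hk1
      rw [e1]
      refine key 1 0 9 (by rfl) run1 ?_
      intro h1
      by_contra h
      have h9 : (9 : ℕ).testBit r = true := by simpa using h
      have hr5 : r < 4 := by
        by_contra h5
        have : (9 : ℕ).testBit r = false := Nat.testBit_lt_two_pow
          (lt_of_lt_of_le (by norm_num : 9 < 2 ^ 4)
            (Nat.pow_le_pow_right (by norm_num) (by omega)))
        rw [this] at h9
        exact absurd h9 (by decide)
      have hr03 : r = 0 ∨ r = 3 := by
        interval_cases r <;> first | decide | (exact absurd h9 (by decide))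
      rcases hr03 with h0 | h3
      · apply htwo 1
        rw [hNn0, h1, h0]
        decide
      · apply h30
        rw [hNn0, h1, h3]
        decide
    · have hex : n₀ = 1 → (1 : ℕ).testBit r = false := by
        intro h1
        by_contra h
        have h9 : (1 : ℕ).testBit r = true := by simpa using h
        have hr0 : r = 0 := by
          by_contra h5
          have : (1 : ℕ).testBit r = false := Nat.testBit_lt_two_pow
            (lt_of_lt_of_le (by norm_num : 1 < 2 ^ 1)
              (Nat.pow_le_pow_right (by norm_num) (by omega)))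
          rw [this] at h9
          exact absurd h9 (by decide)
        apply htwo k
        rw [hNn0, h1, hr0]
        have : (sel primes.reverse 0).prod = 1 := by decide
        rw [this]
        ring
      rw [e1, ← e3]
      interval_cases k
      · exact key 2 1 1 (by rfl) run2 hex
      · exact key 2 2 1 (by rfl) run3 hex
      · exact key 2 3 1 (by rfl) run4 hex
      · exact key 2 4 1 (by rfl) run5 hex
      · exact key 2 5 1 (by rfl) run6 hex
      · exact key 2 6 1 (by rfl) run7 hex

end Pool.Agent.Lib.MP_baf44c_co.Q1.En
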