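import Pool.Agent.Lib.MP_baf44c_co.Q1.En.Jac
import Pool.Agent.Lib.MP_baf44c_co.Q1.En.Prod
import Pool.Agent.Lib.MP_baf44c_co.Q1.Intrinsic

/-!
The products `q * PA N` for the special prime `q` of `N`.
-/

set_option autoImplicit false
set_option maxRecDepth 100000

namespace Pool.Agent.Lib.MP_baf44c_co.Q1.En

/-- Is `l` a square mod `q`? -/
private def sqB (q l : ℕ) : Bool :=
  Nat.rec false (fun x ih => Nat.beq ((x * x) % q) (l % q) || ih) q

private theorem sqB_aux (q l n : ℕ) :
    (Nat.rec false (fun x ih => Nat.beq ((x * x) % q) (l % q) || ih) n : Bool) = true ↔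
      ∃ x < n, (x * x) % q = l % q := by
  induction n with
  | zero => simp
  | succ n ih =>
    have e : (Nat.rec false (fun x ih => Nat.beq ((x * x) % q) (l % q) || ih) (n + 1) : Bool) =
      (Nat.beq ((n * n) % q) (l % q) ||
        (Nat.rec false (fun x ih => Nat.beq ((x * x) % q) (l % q) || ih) n : Bool)) := rfl
    rw [e, Bool.or_eq_true, ih]
    constructor
    · rintro (h | ⟨x, hx, h⟩)
      · exact ⟨n, Nat.lt_succ_self n, Nat.eq_of_beq_eq_true h⟩
      · exact ⟨x, by omega, h⟩
    · rintro ⟨x, hx, h⟩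
      rcases Nat.lt_succ_iff_lt_or_eq.1 hx with hx | hx
      · exact Or.inr ⟨x, hx, h⟩
      · left
        rw [← hx, h]
        exact Nat.beq_refl _

private theorem sqB_iff {q l : ℕ} : sqB q l = true ↔ ∃ x < q, (x * x) % q = l % q :=
  sqB_aux q l q

/-- Quadratic reciprocity. -/
private theorem jac_q {q l : ℕ} (hq : q.Prime) (hq2 : q ≠ 2) (hl : l % 4 = 1) (h0 : l % q ≠ 0) :
    jacobiSym (q : ℤ) l = if sqB q l then 1 else -1 := by
  have : Fact q.Prime := ⟨hq⟩
  have hodd : Odd q := hq.odd_of_ne_two hq2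
  have hq0 : 0 < q := hq.pos
  rw [jacobiSym.quadratic_reciprocity_one_mod_four' hodd hl, ← jacobiSym.legendreSym.to_jacobiSym]
  have hl0 : (((l : ℤ) : ZMod q)) ≠ 0 := by
    intro h
    have h' : ((l : ℕ) : ZMod q) = 0 := by exact_mod_cast h
    rw [ZMod.natCast_eq_zero_iff] at h'
    exact h0 (Nat.mod_eq_zero_of_dvd h')
  have key : sqB q l = true ↔ IsSquare (((l : ℤ) : ZMod q)) := by
    rw [sqB_iff]
    constructor
    · rintro ⟨x, -, hx⟩
      refine ⟨(x : ZMod q), ?_⟩
      have : ((x * x : ℕ) : ZMod q) = ((l : ℕ) : ZMod q) := (ZMod.natCast_eq_natCast_iff' _ _ _).2 hx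
      push_cast at this
      rw [this]
      norm_cast
    · rintro ⟨y, hy⟩
      refine ⟨y.val, ZMod.val_lt y, ?_⟩
      apply (ZMod.natCast_eq_natCast_iff' _ _ _).1
      push_cast
      rw [ZMod.natCast_val, ZMod.cast_id, ← hy]
      norm_cast
  by_cases hs : sqB q l = true
  · rw [if_pos hs]
    exact (legendreSym.eq_one_iff q hl0).2 (key.1 hs)
  · rw [if_neg hs]
    exact (legendreSym.eq_neg_one_iff q).2 (fun h => hs (key.2 h))

/-- The primes of `rk q`. -/
private def pl (q : ℕ) : List ℕ :=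
  if q = 3 then [2] else if q = 5 then [3] else if q = 7 then [2, 3] else if q = 11 then [2, 3] else
  if q = 13 then [7] else if q = 17 then [2] else if q = 19 then [2, 5] else
  if q = 23 then [2, 11] else if q = 29 then [5] else if q = 31 then [2, 3, 5] else
  if q = 37 then [19] else if q = 41 then [2, 5] else if q = 43 then [2, 11] else
  if q = 47 then [2, 23] else if q = 53 then [3] else [2, 5]

/-- The test for one character. -/
private noncomputable def chB (q j : ℕ) (c : Ch) : Bool :=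
  Nat.beq (c.l % 4) 1 && (!(Nat.beq (c.l % q) 0) &&
    (xor (Xf (val c 0) (q :: pl q) (q ^ j * (rk q / (pl q).prod))) (!(sqB q c.l))))

/-- Existence in a list. -/
private noncomputable def exB (f : Ch → Bool) (l : List Ch) : Bool :=
  List.rec false (fun c _ ih => Bool.rec ih true (f c)) l

private theorem exB_spec {f : Ch → Bool} {l : List Ch} (h : exB f l = true) :
    ∃ c ∈ l, f c = true := by
  induction l with
  | nil => exact Bool.noConfusion h
  | cons a l ih =>
    by_cases ha : f a = true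
    · exact ⟨a, List.mem_cons_self, ha⟩
    · have ha' : f a = false := by simpa using ha
      have h' : (Bool.rec (exB f l) true (f a) : Bool) = true := h
      rw [ha'] at h'
      obtain ⟨c, hc, h2⟩ := ih h'
      exact ⟨c, List.mem_cons_of_mem _ hc, h2⟩

/-- Tests for the exponents `j < n`, as long as `q ^ j ≤ 20224`. -/
private noncomputable def allJ (q : ℕ) (n : ℕ) : Bool :=
  Nat.rec true (fun j ih => (Nat.blt 20224 (q ^ j) || exB (chB q j) chs) && ih) n

private theorem allJ_spec {q n : ℕ} (h : allJ q n = true) : ∀ j < n, q ^ j ≤ 20224 →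
    exB (chB q j) chs = true := by
  induction n with
  | zero => intro j hj; omega
  | succ n ih =>
    have h' : ((Nat.blt 20224 (q ^ n) || exB (chB q n) chs) && allJ q n) = true := h
    rw [Bool.and_eq_true, Bool.or_eq_true] at h'
    intro j hj hle
    rcases Nat.lt_succ_iff_lt_or_eq.1 hj with hj | hj
    · exact ih h'.2 j hj hle
    · subst hj
      rcases h'.1 with h1 | h1
      · have : 20224 < q ^ j := Nat.le_of_ble_eq_true h1
        omega
      · exact h1

private theorem all_test : ∀ q ∈ primes, allJ q 10 = true := by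
  decide +kernel

private theorem pl_test : ∀ q ∈ primes, (q :: pl q).Nodup ∧ (∀ p ∈ pl q, p ∈ ([2, 3, 5, 7, 11, 19, 23] : List ℕ)) ∧
    rk q = rk q / (pl q).prod * (pl q).prod ∧ (pl q).prod ^ 5 % (rk q / (pl q).prod) = 0 ∧
    0 < rk q := by
  decide +kernel

private theorem primes_mem {q : ℕ} (hq : q.Prime) (hq59 : q ≤ 59) (hq2 : q ≠ 2) : q ∈ primes := by
  unfold primes
  interval_cases q <;> first
    | (exfalso; revert hq; decide)
    | (exfalso; exact hq2 rfl)
    | decide

private theorem small_prime : ∀ p ∈ ([2, 3, 5, 7, 11, 19, 23] : List ℕ), p.Prime ∧ p ≤ 59 := by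
  intro p hp
  simp only [List.mem_cons, List.not_mem_nil, or_false] at hp
  rcases hp with rfl | rfl | rfl | rfl | rfl | rfl | rfl <;> norm_num

/-- By `spec_rk`, `N = q ^ j rk q`, `j ≥ 1`, `q` is one of the `16` odd primes up to `59`, and
`q ^ (j - 1) ≤ 20224` by `hodd` for `n = q ^ (j - 1)` (this bounds `j`; in fact the odd part of
`rk q` helps as well, and `q` with `rk q` having a prime factor `> 59` do not occur). For each of the remaining
pairs `(q, j)` (at most `73`) one of the characters `c ∈ chs` has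
`J(q * PA N | c.l) = -1`: `PA_eq` with the list `L` of the primes of `N`, `jac_prF` with `F = pell`, `b = val c 0`
(`jac_Fm` for `m = 0`), and the Jacobi symbol of `q` modulo `c.l` (by the fuel based algorithm of `Jac.lean`, by
`norm_num`, or by reciprocity). Organize as a boolean test over the list of pairs, evaluated by
`decide +kernel`. If for some pair no character in `chs` works, tell helper94. -/
theorem enum_spec {N q : ℕ} (hN : 0 < N) (hq : q.Prime) (hq2 : q ≠ 2) (hs : Spec pell N q)
    (h59 : ∀ p : ℕ, p.Prime → p ∣ N → p ≤ 59) (hk : N.factorization 2 ≤ 7)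
    (hodd : ∀ n : ℕ, n ∣ N → Odd n → (∀ p : ℕ, p.Prime → p ∣ n → p ∣ N / n) → n ≤ 20224) :
    ¬ IsSquare (q * PA N) := by
  have hqN : q ∣ N := by
    rcases hs with ⟨h, -⟩ | ⟨-, h, -⟩
    · exact absurd h hq2
    · exact h
  have hq59 : q ≤ 59 := h59 q hq hqN
  obtain ⟨hNe, hj0⟩ := spec_rk hN hq hq59 hq2 hs
  obtain ⟨j, hj⟩ : ∃ j, N.factorization q = j + 1 := ⟨N.factorization q - 1, by omega⟩
  rw [hj] at hNe
  have hmem := primes_mem hq hq59 hq2
  obtain ⟨hnd, hpl, hrk, hpow, hrk0⟩ := pl_test q hmem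
  have hq0 : 0 < q := hq.pos
  -- the bound for the exponent
  have hle : q ^ j ≤ 20224 := by
    refine hodd _ ?_ ?_ ?_
    · rw [hNe, pow_succ, mul_assoc]
      exact dvd_mul_right _ _
    · exact (hq.odd_of_ne_two hq2).pow
    · intro p hp hpd
      have : p = q := (Nat.prime_dvd_prime_iff_eq hp hq).1 (hp.dvd_of_dvd_pow hpd)
      rw [this]
      have e : N / q ^ j = q * rk q := by
        conv_lhs => rw [hNe]
        rw [pow_succ, mul_assoc]
        exact Nat.mul_div_cancel_left _ (pow_pos hq0 j)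
      rw [e]
      exact dvd_mul_right _ _
  have hj10 : j < 10 := by
    by_contra hc
    have h3 : 3 ≤ q := by
      have := hq.two_le
      omega
    have h1 : 3 ^ 10 ≤ q ^ j :=
      (Nat.pow_le_pow_left h3 10).trans (Nat.pow_le_pow_right hq0 (not_lt.1 hc))
    norm_num at h1
    omega
  obtain ⟨c, hc, ht⟩ := exB_spec (allJ_spec (all_test q hmem) j hj10 hle)
  unfold chB at ht
  rw [Bool.and_eq_true, Bool.and_eq_true] at ht
  obtain ⟨ht1, ht2, ht3⟩ := ht
  have hl4 : c.l % 4 = 1 := Nat.eq_of_beq_eq_true ht1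
  have hl0 : c.l % q ≠ 0 := by
    intro h
    rw [h] at ht2
    exact absurd ht2 (by decide)
  obtain ⟨hcp, hcp59⟩ := chs_prime c hc
  set m := rk q / (pl q).prod with hm
  have hm0 : 0 < m := by
    rcases Nat.eq_zero_or_pos m with h | h
    · rw [h, zero_mul] at hrk
      omega
    · exact h
  have hn0 : 0 < q ^ j * m := Nat.mul_pos (pow_pos hq0 j) hm0
  have hLp : ∀ p ∈ q :: pl q, p.Prime ∧ p ≤ 59 := by
    intro p hp
    rcases List.mem_cons.1 hp with rfl | hp
    · exact ⟨hq, hq59⟩
    · exact small_prime p (hpl p hp)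
  have hNL : N = q ^ j * m * (q :: pl q).prod := by
    conv_lhs => rw [hNe, hrk]
    rw [List.prod_cons, pow_succ]
    ring
  have hin : ∀ p : ℕ, p.Prime → p ∣ q ^ j * m → p ∈ q :: pl q := by
    intro p hp hpd
    rcases hp.dvd_mul.1 hpd with h | h
    · rw [(Nat.prime_dvd_prime_iff_eq hp hq).1 (hp.dvd_of_dvd_pow h)]
      exact List.mem_cons_self
    · have h1 : p ∣ (pl q).prod := hp.dvd_of_dvd_pow (h.trans (Nat.dvd_of_mod_eq_zero hpow))
      obtain ⟨a, ha, h2⟩ := (Prime.dvd_prod_iff hp.prime).1 h1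
      rw [(Nat.prime_dvd_prime_iff_eq hp (small_prime a (hpl a ha)).1).1 h2]
      exact List.mem_cons_of_mem _ ha
  have hPA : PA N = prF pell (q :: pl q) (q ^ j * m) := by
    rw [hNL]
    exact PA_eq hnd (fun p hp => (hLp p hp).1) hn0 hin
  have hcn : ∀ p : ℕ, p.Prime → p ≤ 59 → ¬ c.p ∣ p := by
    intro p hp hp59 hd
    have := (Nat.prime_dvd_prime_iff_eq hcp hp).1 hd
    omega
  have hJ : jacobiSym (PA N : ℤ) c.l =
      if Xf (val c 0) (q :: pl q) (q ^ j * m) then -1 else 1 := by
    rw [hPA]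
    refine jac_prF hcp (fun n hn => ?_) (q :: pl q) (fun p hp => hcn p (hLp p hp).1 (hLp p hp).2) ?_
    · exact jac_Fm hc 0 hn
    · intro hd
      have h1 := hin c.p hcp hd
      have h2 := (hLp _ h1).2
      omega
  have hJq := jac_q hq hq2 hl4 hl0
  have hneg : jacobiSym ((q * PA N : ℕ) : ℤ) c.l = -1 := by
    push_cast
    rw [jacobiSym.mul_left, hJ, hJq]
    generalize Xf (val c 0) (q :: pl q) (q ^ j * m) = X at ht3 ⊢
    generalize sqB q c.l = S at ht3 ⊢
    revert ht3
    cases X <;> cases S <;> decide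
  rintro ⟨r, hr⟩
  rw [hr] at hneg
  push_cast at hneg
  rw [jacobiSym.mul_left] at hneg
  nlinarith [mul_self_nonneg (jacobiSym (r : ℤ) c.l)]

end Pool.Agent.Lib.MP_baf44c_co.Q1.En
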