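import Pool.Agent.Lib.MP_baf44c_co.Q1.En.Vf

/-!
Correctness of the tables.
-/

set_option autoImplicit false

namespace Pool.Agent.Lib.MP_baf44c_co.Q1.En

/-- The conditions on the data of a character used for the table. -/
structure Good (c : Ch) : Prop where
  hp : c.p % 2 = 1
  hp1 : 1 < c.p
  hr : 0 < c.r
  hg : Sim c.p (c.g ^ c.r) 1
  h2 : Sim c.p 2 (c.g ^ c.i2)
  hlen : c.ix.length = 16
  hix : ∀ j < 16, c.ix.getD j 0 < c.r ∧ Sim c.p (primes.getD j 0) (c.g ^ c.ix.getD j 0)
  hs : ∀ n < 2 * c.p, c.s.testBit n = c.s.testBit ((2 * c.p - n) % (2 * c.p))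

private theorem bit_lt (s n : ℕ) : bit s n < 2 := by
  rw [bit_eq]
  split_ifs <;> norm_num

theorem val_lt (c : Ch) (m n : ℕ) : val c m n < 2 := by
  by_cases hm : m = 0
  · subst hm
    rw [val_zero]
    exact bit_lt _ _
  · rw [val_ne c hm]
    have h1 := bit_lt c.s (n % (2 * c.p))
    have h2 := bit_lt c.s (2 * n % (2 * c.p))
    have := Nat.xor_lt_two_pow (n := 1) (x := bit c.s (n % (2 * c.p)))
      (y := bit c.s (2 * n % (2 * c.p))) (by simpa using h1) (by simpa using h2)
    simpa using this

private theorem bit_sim {c : Ch} (hc : Good c) {n n' : ℕ} (h : Sim (2 * c.p) n n') :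
    bit c.s (n % (2 * c.p)) = bit c.s (n' % (2 * c.p)) := by
  have hp1 := hc.hp1
  rcases h with h | h
  · rw [Nat.ModEq] at h
    rw [h]
  · have hlt : n % (2 * c.p) < 2 * c.p := Nat.mod_lt _ (by omega)
    have hlt' : n' % (2 * c.p) < 2 * c.p := Nat.mod_lt _ (by omega)
    have hd : 2 * c.p ∣ n % (2 * c.p) + n' % (2 * c.p) := by
      rw [Nat.dvd_iff_mod_eq_zero, ← Nat.add_mod]
      exact Nat.mod_eq_zero_of_dvd h
    have key : (2 * c.p - n % (2 * c.p)) % (2 * c.p) = n' % (2 * c.p) := by
      obtain ⟨k, hk⟩ := hd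
      have hk2 : k < 2 := by
        by_contra hk2
        have : 2 * c.p * 2 ≤ 2 * c.p * k := Nat.mul_le_mul_left _ (by omega)
        omega
      interval_cases k
      · have h0 : n % (2 * c.p) = 0 := by omega
        have h0' : n' % (2 * c.p) = 0 := by omega
        rw [h0, h0', Nat.sub_zero, Nat.mod_self]
      · have h0 : 2 * c.p - n % (2 * c.p) = n' % (2 * c.p) := by omega
        rw [h0, Nat.mod_mod]
    rw [bit_eq, bit_eq, hc.hs _ hlt, key]

/-- `bit c.s (n % (2 c.p))` only depends on `n` mod `2 c.p` up to sign by `Good.hs`; the same for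
`2 n`. -/
theorem val_congr {c : Ch} (hc : Good c) (m : ℕ) {n n' : ℕ} (h : Sim (2 * c.p) n n') :
    val c m n = val c m n' := by
  by_cases hm : m = 0
  · subst hm
    rw [val_zero, val_zero]
    exact bit_sim hc h
  · rw [val_ne c hm, val_ne c hm, bit_sim hc h,
      bit_sim hc (Sim.mul (Sim.refl (2 * c.p) 2) h)]

private theorem par_lt (m : ℕ) : par m < 2 := by
  rw [par_eq]
  split_ifs <;> norm_num

private theorem rep_par {p b : ℕ} (hp : p % 2 = 1) (hb : b < 2) (x : ℕ) : rep p b x % 2 = b := by
  rw [rep_eq]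
  split_ifs <;> omega

private theorem rep_sim (p b x : ℕ) : Sim p (rep p b x) x := by
  left
  rw [rep_eq]
  split_ifs
  · exact Nat.ModEq.refl _
  · exact Nat.ModEq.symm (by rw [Nat.ModEq, Nat.add_mod_right])

private theorem mod_sim (p x : ℕ) : Sim p (x % p) x := Or.inl (Nat.mod_modEq _ _)

private theorem pow_sim {p g r : ℕ} (h : Sim p (g ^ r) 1) (k : ℕ) : Sim p (g ^ (k % r)) (g ^ k) := by
  have h1 : ∀ t : ℕ, Sim p ((g ^ r) ^ t) 1 := by
    intro t
    induction t with
    | zero => rw [pow_zero]; exact Sim.refl _ _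
    | succ t ih =>
      rw [pow_succ]
      have := Sim.mul ih h
      rwa [Nat.mul_one] at this
  have h2 : g ^ k = g ^ (k % r) * (g ^ r) ^ (k / r) := by
    rw [← pow_mul, ← pow_add, Nat.mod_add_div]
  have h3 := Sim.mul (Sim.refl p (g ^ (k % r))) (h1 (k / r))
  rw [Nat.mul_one] at h3
  rw [h2]
  exact Sim.symm h3

private theorem R_step {c : Ch} (hc : Good c) (m : ℕ) {q i : ℕ} (hq : q % 2 = 1)
    (h : Sim c.p q (c.g ^ i)) (j : ℕ) :
    Sim (2 * c.p) (rep c.p (par m) (c.g ^ ((j + i) % c.r) % c.p))
      (q * rep c.p (par m) (c.g ^ j % c.p)) := by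
  refine Sim.double hc.hp ?_ ?_
  · have h1 : Sim c.p (rep c.p (par m) (c.g ^ ((j + i) % c.r) % c.p)) (c.g ^ (j + i)) :=
      Sim.trans (rep_sim _ _ _) (Sim.trans (mod_sim _ _) (pow_sim hc.hg _))
    have h2 : Sim c.p (q * rep c.p (par m) (c.g ^ j % c.p)) (c.g ^ i * c.g ^ j) :=
      Sim.mul h (Sim.trans (rep_sim _ _ _) (mod_sim _ _))
    rw [← pow_add, Nat.add_comm i j] at h2
    exact Sim.trans h1 (Sim.symm h2)
  · rw [rep_par hc.hp (par_lt m), Nat.mul_mod, hq, rep_par hc.hp (par_lt m), Nat.one_mul,
      Nat.mod_eq_of_lt (par_lt m)]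

private theorem build_aux {c : Ch} (hc : Good c) (m : ℕ) : ∀ (ix qs Q l : List ℕ),
    ix.length = qs.length →
    (∀ j < ix.length, ix.getD j 0 < c.r ∧ (qs.getD j 0) % 2 = 1 ∧
      Sim c.p (qs.getD j 0) (c.g ^ ix.getD j 0)) →
    l.length = c.r →
    (∀ j < c.r, l.getD j 0 = Vf (val c m) Q (rep c.p (par m) (c.g ^ j % c.p))) →
    ∀ j < c.r, (build ix (2 ^ Q.length) l).getD j 0 =
      Vf (val c m) (qs.reverse ++ Q) (rep c.p (par m) (c.g ^ j % c.p)) := by
  intro ix
  induction ix with
  | nil =>
    intro qs Q l h1 _ _ h4 j hj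
    have : qs = [] := List.length_eq_zero_iff.1 (by simpa using h1.symm)
    subst this
    rw [build_nil, h4 j hj]
    rfl
  | cons i ix ih =>
    intro qs Q l h1 h2 h3 h4 j hj
    cases qs with
    | nil => simp at h1
    | cons q qs =>
      have h20 := h2 0 (by simp)
      simp only [List.getD_cons_zero] at h20
      rw [build_cons, List.reverse_cons, List.append_assoc, List.singleton_append]
      have hw : 2 * 2 ^ Q.length = 2 ^ (q :: Q).length := by
        rw [List.length_cons, pow_succ, Nat.mul_comm]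
      rw [hw, zipx_eq, drop_eq, app_eq]
      refine ih qs (q :: Q) _ (by simpa using h1) ?_ ?_ ?_ j hj
      · intro k hk
        have := h2 (k + 1) (by simpa using hk)
        simpa only [List.getD_cons_succ] using this
      · rw [List.length_zipWith, List.length_drop, List.length_append, h3]
        omega
      · intro k hk
        have e1 : (List.zipWith (fun a b => a ||| ((a ^^^ b) <<< 2 ^ Q.length)) l
            (List.drop i (l ++ l))).getD k 0 =
            l.getD k 0 ||| ((l.getD k 0 ^^^ (l ++ l).getD (i + k) 0) <<< 2 ^ Q.length) := by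
          have hk1 : k < l.length := by omega
          have hk2 : i + k < (l ++ l).length := by rw [List.length_append]; omega
          have hk3 : k < (List.drop i (l ++ l)).length := by
            rw [List.length_drop, List.length_append]; omega
          have hk4 : k < (List.zipWith (fun a b => a ||| ((a ^^^ b) <<< 2 ^ Q.length)) l
            (List.drop i (l ++ l))).length := by
            rw [List.length_zipWith]; exact lt_min hk1 hk3
          rw [List.getD_eq_getElem _ _ hk4, List.getElem_zipWith, List.getD_eq_getElem _ _ hk1,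
            List.getD_eq_getElem _ _ hk2, List.getElem_drop]
        have e2 : (l ++ l).getD (i + k) 0 = l.getD ((k + i) % c.r) 0 := by
          by_cases hik : i + k < l.length
          · rw [List.getD_append _ _ _ _ hik, Nat.add_comm k i, Nat.mod_eq_of_lt (by omega)]
          · rw [List.getD_append_right _ _ _ _ (by omega), h3]
            congr 1
            rw [Nat.mod_eq_sub_mod (by omega), Nat.mod_eq_of_lt (by omega)]
            omega
        rw [e1, e2, h4 k hk, h4 _ (Nat.mod_lt _ hc.hr)]
        have e3 : Vf (val c m) Q (rep c.p (par m) (c.g ^ ((k + i) % c.r) % c.p)) =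
            Vf (val c m) Q (q * rep c.p (par m) (c.g ^ k % c.p)) :=
          Vf_congr (M := 2 * c.p) (fun n n' h => val_congr hc m h) Q
            (R_step hc m h20.2.1 h20.2.2 k)
        rw [e3]
        rfl

/-- Let `R j = rep c.p (par m) (c.g ^ j % c.p)`: it has parity `par m` and is `≡ c.g ^ j` mod `c.p`. The
list after processing the first `k` entries of `c.ix` has length `c.r` and its entry `j` is
`Vf (val c m) (primes.take k).reverse (R j)`; the next step combines entries `j` and
`(j + i) % c.r`, `i = c.ix.getD k 0` (`zipx_eq`, `drop_eq`, `app_eq`), and `q * R j ∼ R ((j + i) % c.r)` mod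
`2 c.p` for `q = primes.getD k 0` (`Good.hix`, `Good.hg`, same parity, `Sim.double`), so `Vf_congr`
applies. -/
theorem build_getD {c : Ch} (hc : Good c) (m : ℕ) {j : ℕ} (hj : j < c.r) :
    (build c.ix 1 (start c m)).getD j 0 =
      Vf (val c m) primes.reverse (rep c.p (par m) (c.g ^ j % c.p)) := by
  have hodd : ∀ j < 16, (primes.getD j 0) % 2 = 1 := by decide
  have hs : (start c m).length = c.r := by
    rw [start_eq, List.length_map, pows_length]
  have h := build_aux hc m c.ix primes [] (start c m) (by rw [hc.hlen]; rfl)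
    (by
      intro k hk
      rw [hc.hlen] at hk
      exact ⟨(hc.hix k hk).1, hodd k hk, (hc.hix k hk).2⟩) hs
    (by
      intro k hk
      rw [start_eq, List.getD_eq_getElem _ _ (by rw [List.length_map, pows_length]; exact hk),
        List.getElem_map]
      have hk' : k < (pows c.p c.g c.r 1).length := by rw [pows_length]; exact hk
      have h5 := pows_getD (p := c.p) (g := c.g) hk hc.hp1
      rw [List.getD_eq_getElem _ _ hk', Nat.one_mul] at h5
      rw [h5]
      rfl) j hj
  rw [List.append_nil] at h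
  exact h

/-- `look_rows`, `build_getD`, `Vf_congr`. -/
theorem look_tab {c : Ch} (hc : Good c) (m : ℕ) {j x : ℕ} (hj : j < c.r) (hx : x % 2 = par m)
    (hs : Sim c.p x (c.g ^ j)) : look (tab m c) j = Vf (val c m) primes.reverse x := by
  have e : tab m c = rows (c.r / 8 + 1) (build c.ix 1 (start c m)) := rfl
  rw [e, look_rows (by omega), build_getD hc m hj]
  refine Vf_congr (M := 2 * c.p) (fun n n' h => val_congr hc m h) _ ?_
  refine Sim.double hc.hp ?_ ?_
  · exact Sim.trans (Sim.trans (rep_sim _ _ _) (mod_sim _ _)) (Sim.symm hs)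
  · rw [rep_par hc.hp (par_lt m), hx]

end Pool.Agent.Lib.MP_baf44c_co.Q1.En
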