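import Pool.Agent.Lib.MP_baf44c_co.Q1.Defs

/-!
The products `PA (2 ^ j)`.
-/

set_option autoImplicit false

namespace Pool.Agent.Lib.MP_baf44c_co.Q1.En

/-- companion numbers -/
private def hh : ℕ → ℕ
  | 0 => 1
  | 1 => 1
  | n + 2 => 2 * hh (n + 1) + hh n

private theorem step : ∀ n : ℕ, pell (n + 1) = pell n + hh n ∧ hh (n + 1) = 2 * pell n + hh n := by
  intro n
  induction n with
  | zero => simp [pell, hh]
  | succ n ih =>
    obtain ⟨h1, h2⟩ := ih
    have e1 : pell (n + 1 + 1) = 2 * pell (n + 1) + pell n := rfl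
    have e2 : hh (n + 1 + 1) = 2 * hh (n + 1) + hh n := rfl
    constructor <;> omega

private theorem add_form (m : ℕ) : ∀ n : ℕ, pell (m + n) = pell m * hh n + hh m * pell n ∧
    hh (m + n) = hh m * hh n + 2 * pell m * pell n := by
  intro n
  induction n with
  | zero => simp [pell, hh]
  | succ n ih =>
    obtain ⟨h1, h2⟩ := ih
    have s1 := step (m + n)
    have s2 := step n
    rw [← Nat.add_assoc, s1.1, s1.2, s2.1, s2.2, h1, h2]
    constructor <;> ring

private theorem norm_form : ∀ n : ℕ, hh (2 * n) ^ 2 = 2 * pell (2 * n) ^ 2 + 1 := by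
  intro n
  induction n with
  | zero => simp [pell, hh]
  | succ n ih =>
    have s1 := step (2 * n)
    have s2 := step (2 * n + 1)
    have e : 2 * (n + 1) = 2 * n + 1 + 1 := by ring
    rw [e, s2.1, s2.2, s1.1, s1.2]
    have : (2 * (pell (2 * n) + hh (2 * n)) + (2 * pell (2 * n) + hh (2 * n))) ^ 2 =
        2 * ((pell (2 * n) + hh (2 * n)) + (2 * pell (2 * n) + hh (2 * n))) ^ 2 +
          (hh (2 * n) ^ 2 - 2 * pell (2 * n) ^ 2) := by
      rw [ih]
      have h1 : 2 * pell (2 * n) ^ 2 + 1 - 2 * pell (2 * n) ^ 2 = 1 := by omega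
      rw [h1]
      nlinarith [ih]
    rw [this, ih]
    congr 1
    omega

private theorem pell_pos : ∀ n : ℕ, 0 < pell (n + 1) := by
  intro n
  induction n with
  | zero => simp [pell]
  | succ n ih =>
    have e1 : pell (n + 1 + 1) = 2 * pell (n + 1) + pell n := rfl
    omega

private theorem PA_two (j : ℕ) (hj : 1 ≤ j) : PA (2 ^ j) = pell (2 ^ j) * pell (2 ^ (j - 1)) := by
  unfold PA
  have h : (2 ^ j).divisors.filter Squarefree = {1, 2} := by
    ext d
    simp only [Finset.mem_filter, Finset.mem_insert, Finset.mem_singleton]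
    constructor
    · rintro ⟨hd, hs⟩
      rw [Nat.mem_divisors_prime_pow Nat.prime_two] at hd
      obtain ⟨i, hi, rfl⟩ := hd
      rcases Nat.lt_or_ge i 2 with h2 | h2
      · interval_cases i
        · left; rfl
        · right; rfl
      · exfalso
        have h4 : 2 * 2 ∣ 2 ^ i := by
          rw [← sq]
          exact pow_dvd_pow 2 h2
        have := hs 2 h4
        simp at this
    · rintro (rfl | rfl)
      · exact ⟨Nat.one_mem_divisors.2 (by positivity), squarefree_one⟩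
      · refine ⟨?_, Nat.prime_two.squarefree⟩
        rw [Nat.mem_divisors]
        exact ⟨dvd_pow_self 2 (by omega), by positivity⟩
  rw [h, Finset.prod_pair (by norm_num), Nat.div_one]
  congr 2
  obtain ⟨i, rfl⟩ : ∃ i, j = i + 1 := ⟨j - 1, by omega⟩
  rw [pow_succ, Nat.mul_div_cancel _ (by norm_num : 0 < 2)]
  simp

private theorem sq_cancel {a b : ℕ} (hb : 0 < b) (h : IsSquare (a * b ^ 2)) : IsSquare a := by
  obtain ⟨r, hr⟩ := h
  have h1 : b ^ 2 ∣ r ^ 2 := ⟨a, by rw [sq r, ← hr]; ring⟩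
  rw [Nat.pow_dvd_pow_iff (by norm_num)] at h1
  obtain ⟨k, rfl⟩ := h1
  refine ⟨k, ?_⟩
  have h2 : b ^ 2 * a = b ^ 2 * (k * k) := by
    calc b ^ 2 * a = a * b ^ 2 := by ring
      _ = b * k * (b * k) := hr
      _ = b ^ 2 * (k * k) := by ring
  exact Nat.eq_of_mul_eq_mul_left (by positivity) h2

/-- `PA (2 ^ j) = P_(2 n) P_n` with `n = 2 ^ (j - 1)` even, and `P_(2 n) = 2 P_n H_n` with
`H_n ^ 2 = 2 P_n ^ 2 + 1` (`n` even; `H_n = P_n + P_(n - 1)`), `H_n` odd. So `PA (2 ^ j) = 2 H_n P_n ^ 2` is not a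
square (`2 H_n ≡ 2` mod `4`). If `2 * PA (2 ^ j) = 4 H_n P_n ^ 2` is a square then `H_n = y ^ 2`, `y` odd and
`y ^ 4 = 2 P_n ^ 2 + 1`, `y ^ 2 + 1 = 2 s`, `P_n ^ 2 = 2 s (s - 1)`, `s` odd, so `s` and `2 (s - 1)` are coprime and
both squares, `y ^ 2 - 1 = 2 (s - 1) = t ^ 2`, so `t = 0`, `P_n = 0`, a contradiction. -/
theorem enum_two {j : ℕ} (hj : 2 ≤ j) :
    ¬ IsSquare (PA (2 ^ j)) ∧ ¬ IsSquare (2 * PA (2 ^ j)) := by
  obtain ⟨i, rfl⟩ : ∃ i, j = i + 2 := ⟨j - 2, by omega⟩
  rw [PA_two _ (by omega)]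
  have e1 : (2 : ℕ) ^ (i + 2) = 2 ^ (i + 1) + 2 ^ (i + 1) := by ring
  have e2 : i + 2 - 1 = i + 1 := by omega
  rw [e2, e1]
  set n := 2 ^ (i + 1) with hn
  have hn2 : n = 2 * 2 ^ i := by rw [hn]; ring
  have hN : hh n ^ 2 = 2 * pell n ^ 2 + 1 := by
    rw [hn2]
    exact norm_form _
  have hpos : 0 < pell n := by
    obtain ⟨k, hk⟩ : ∃ k, n = k + 1 := ⟨n - 1, by
      have : 0 < n := by rw [hn]; positivity
      omega⟩
    rw [hk]
    exact pell_pos k
  have hP : pell (n + n) = 2 * hh n * pell n := by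
    rw [(add_form n n).1]
    ring
  have hodd : hh n % 2 = 1 := by
    rcases Nat.even_or_odd (hh n) with h | h
    · exfalso
      obtain ⟨k, hk⟩ := h
      rw [hk] at hN
      have : (k + k) ^ 2 = 2 * (2 * k ^ 2) := by ring
      omega
    · exact Nat.odd_iff.1 h
  have hPA : pell (n + n) * pell n = 2 * hh n * pell n ^ 2 := by
    rw [hP]
    ring
  rw [hPA]
  constructor
  · intro h
    obtain ⟨k, hk⟩ := sq_cancel hpos h
    have h4 : k * k % 4 = 0 ∨ k * k % 4 = 1 := by
      rcases Nat.even_or_odd' k with ⟨m, rfl | rfl⟩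
      · left
        have : 2 * m * (2 * m) = 4 * (m * m) := by ring
        omega
      · right
        have : (2 * m + 1) * (2 * m + 1) = 4 * (m * m + m) + 1 := by ring
        omega
    omega
  · intro h
    have h' : IsSquare (hh n * (2 * pell n) ^ 2) := by
      have : hh n * (2 * pell n) ^ 2 = 2 * (2 * hh n * pell n ^ 2) := by ring
      rw [this]
      exact h
    obtain ⟨y, hy⟩ := sq_cancel (by omega) h'
    have hyodd : y % 2 = 1 := by
      rcases Nat.even_or_odd' y with ⟨m, rfl | rfl⟩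
      · exfalso
        have : 2 * m * (2 * m) = 2 * (2 * (m * m)) := by ring
        omega
      · omega
    obtain ⟨m, rfl⟩ : ∃ m, y = 2 * m + 1 := ⟨y / 2, by omega⟩
    -- `y ^ 2 = 4 m (m + 1) + 1`, `s = 2 m (m + 1) + 1`
    set u := m * (m + 1) with hu
    have hy2 : hh n = 4 * u + 1 := by
      rw [hy, hu]
      ring
    have hmain : pell n ^ 2 = (2 * u + 1) * (4 * u) := by
      rw [hy2] at hN
      nlinarith
    have hcop : IsCoprime ((4 * u : ℕ) : ℤ) ((2 * u + 1 : ℕ) : ℤ) := by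
      refine ⟨-((u : ℤ) + 1), 2 * u + 1, ?_⟩
      push_cast
      ring
    have hsq : ((4 * u : ℕ) : ℤ) * ((2 * u + 1 : ℕ) : ℤ) = ((pell n : ℕ) : ℤ) ^ 2 := by
      rw [← Nat.cast_mul, ← Nat.cast_pow, hmain, mul_comm]
    have hu0 : u = 0 := by
      obtain ⟨t, ht | ht⟩ := Int.sq_of_isCoprime hcop hsq
      · have hT : (4 * u : ℕ) = t.natAbs ^ 2 := by
          zify
          rw [sq_abs, ← ht]
          push_cast
          ring
        set T := t.natAbs
        have h1 : T < 2 * m + 1 := by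
          by_contra hc
          push Not at hc
          have : (2 * m + 1) ^ 2 ≤ T ^ 2 := Nat.pow_le_pow_left hc 2
          rw [← hT, hu] at this
          nlinarith
        have h2 : T ^ 2 ≤ (2 * m) ^ 2 := Nat.pow_le_pow_left (by omega) 2
        rw [← hT, hu] at h2
        have h3 : m = 0 := by nlinarith
        rw [hu, h3, Nat.zero_mul]
      · have h1 : ((4 * u : ℕ) : ℤ) ≤ 0 := by
          rw [ht]
          have := sq_nonneg t
          linarith
        have h2 : (4 * u : ℕ) ≤ 0 := by exact_mod_cast h1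
        omega
    rw [hu0] at hmain
    have : pell n ^ 2 = 0 := by rw [hmain]
    have : 0 < pell n ^ 2 := by positivity
    omega

end Pool.Agent.Lib.MP_baf44c_co.Q1.En
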