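import Pool.Agent.Lib.MP_baf44c_co.Q1.En.Eqs

/-!
Bit vectors of alternating sums over subsets of a list of primes.
-/

set_option autoImplicit false

namespace Pool.Agent.Lib.MP_baf44c_co.Q1.En

/-- `n ≡ ± m` mod `M`. -/
def Sim (M n m : ℕ) : Prop := n ≡ m [MOD M] ∨ M ∣ n + m

/-- The bit vector computed by `build`. -/
def Vf (b : ℕ → ℕ) : List ℕ → ℕ → ℕ
  | [], n => b n
  | q :: Q, n => Vf b Q n ||| ((Vf b Q n ^^^ Vf b Q (q * n)) <<< 2 ^ Q.length)

/-- The members of the list selected by the bits of `r`; the last member belongs to bit `0`. -/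
def sel : List ℕ → ℕ → List ℕ
  | [], _ => []
  | q :: Q, r => if r.testBit Q.length then q :: sel Q r else sel Q r

/-- Parity of the sum of `b (n ∏ S)` over the subsets `S`. -/
def Xf (b : ℕ → ℕ) : List ℕ → ℕ → Bool
  | [], n => (b n).testBit 0
  | q :: Q, n => (Xf b Q n).xor (Xf b Q (q * n))

private theorem sim_iff {M n m : ℕ} : Sim M n m ↔ ((n : ZMod M) = m ∨ (n : ZMod M) = -m) := by
  unfold Sim
  rw [← ZMod.natCast_eq_natCast_iff, eq_neg_iff_add_eq_zero, ← Nat.cast_add,
    ZMod.natCast_eq_zero_iff]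

theorem Sim.refl (M n : ℕ) : Sim M n n := Or.inl rfl

theorem Sim.symm {M n m : ℕ} (h : Sim M n m) : Sim M m n := by
  rcases h with h | h
  · exact Or.inl h.symm
  · exact Or.inr (by rwa [Nat.add_comm])

theorem Sim.trans {M n m k : ℕ} (h : Sim M n m) (h' : Sim M m k) : Sim M n k := by
  rw [sim_iff] at *
  rcases h with h | h <;> rcases h' with h' | h' <;> rw [h, h'] <;> simp

theorem Sim.mul {M n m n' m' : ℕ} (h : Sim M n m) (h' : Sim M n' m') : Sim M (n * n') (m * m') := by
  rw [sim_iff] at *
  push_cast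
  rcases h with h | h <;> rcases h' with h' | h' <;> rw [h, h'] <;> simp

/-- `2` and `p` are coprime. If `p ∣ n + m` with the same parities then `2 p ∣ n + m`; etc. -/
theorem Sim.double {p n m : ℕ} (hp : p % 2 = 1) (h : Sim p n m) (h2 : n % 2 = m % 2) :
    Sim (2 * p) n m := by
  have hc : Nat.Coprime 2 p := Nat.coprime_two_left.2 (Nat.odd_iff.2 hp)
  rcases h with h | h
  · exact Or.inl ((Nat.modEq_and_modEq_iff_modEq_mul hc).1 ⟨h2, h⟩)
  · exact Or.inr (hc.mul_dvd_of_dvd_of_dvd (by omega) h)

theorem Vf_lt {b : ℕ → ℕ} (hb : ∀ n, b n < 2) (Q : List ℕ) (n : ℕ) : Vf b Q n < 2 ^ 2 ^ Q.length := by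
  induction Q generalizing n with
  | nil => simpa [Vf] using hb n
  | cons q Q ih =>
    have e : 2 ^ (q :: Q).length = 2 ^ Q.length + 2 ^ Q.length := by
      rw [List.length_cons, pow_succ]
      ring
    rw [e]
    have h1 := ih n
    have h2 := Nat.xor_lt_two_pow (ih n) (ih (q * n))
    have h3 : (Vf b Q n ^^^ Vf b Q (q * n)) <<< 2 ^ Q.length < 2 ^ (2 ^ Q.length + 2 ^ Q.length) := by
      rw [Nat.shiftLeft_eq, pow_add]
      exact Nat.mul_lt_mul_of_pos_right h2 (by positivity)
    have h4 : Vf b Q n < 2 ^ (2 ^ Q.length + 2 ^ Q.length) :=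
      lt_of_lt_of_le h1 (Nat.pow_le_pow_right (by norm_num) (Nat.le_add_left _ _))
    exact Nat.or_lt_two_pow h4 h3

private theorem sel_congr {Q : List ℕ} {r r' : ℕ} (h : ∀ j < Q.length, r.testBit j = r'.testBit j) :
    sel Q r = sel Q r' := by
  induction Q with
  | nil => rfl
  | cons q Q ih =>
    have h1 := ih (fun j hj => h j (by rw [List.length_cons]; omega))
    have h2 := h Q.length (by rw [List.length_cons]; omega)
    unfold sel
    rw [h1, h2]

/-- For `Q = q :: Q'`, `w = 2 ^ Q'.length`: a bit `r < w` of `Vf b Q n` is that of `Vf b Q' n`; for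
`r = w + r'`, `r' < w`, it is that of `Vf b Q' n ^^^ Vf b Q' (q * n)` number `r'` (`Vf_lt`), and
`sel Q' r = sel Q' r'` as the bits below `Q'.length` agree. -/
theorem testBit_Vf {b : ℕ → ℕ} (hb : ∀ n, b n < 2) (Q : List ℕ) (n : ℕ) {r : ℕ}
    (hr : r < 2 ^ Q.length) : (Vf b Q n).testBit r = Xf b (sel Q r) n := by
  induction Q generalizing n r with
  | nil =>
    have : r = 0 := by simpa using hr
    subst this
    rfl
  | cons q Q ih =>
    have e : Vf b (q :: Q) n = Vf b Q n ||| ((Vf b Q n ^^^ Vf b Q (q * n)) <<< 2 ^ Q.length) := rfl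
    have e2 : sel (q :: Q) r = if r.testBit Q.length then q :: sel Q r else sel Q r := rfl
    rw [e, e2, Nat.testBit_or, Nat.testBit_shiftLeft]
    rcases Nat.lt_or_ge r (2 ^ Q.length) with h | h
    · have h1 : r.testBit Q.length = false := Nat.testBit_lt_two_pow h
      have h2 : decide (r ≥ 2 ^ Q.length) = false := by simpa using h
      rw [h1, h2, ih n h]
      simp
    · have hr2 : r - 2 ^ Q.length < 2 ^ Q.length := by
        rw [List.length_cons, pow_succ] at hr
        omega
      have h1 : r.testBit Q.length = true := by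
        have e3 : r = 2 ^ Q.length + (r - 2 ^ Q.length) := by omega
        rw [e3, Nat.testBit_two_pow_add_eq, Nat.testBit_lt_two_pow hr2]
        rfl
      have h2 : decide (r ≥ 2 ^ Q.length) = true := by simpa using h
      have h3 : (Vf b Q n).testBit r = false :=
        Nat.testBit_lt_two_pow (lt_of_lt_of_le (Vf_lt hb Q n) (Nat.pow_le_pow_right (by norm_num) h))
      have h4 : sel Q r = sel Q (r - 2 ^ Q.length) := by
        apply sel_congr
        intro j hj
        have e3 : r = 2 ^ Q.length + (r - 2 ^ Q.length) := by omega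
        conv_lhs => rw [e3]
        rw [Nat.testBit_two_pow_add_gt hj]
      rw [h1, h2, h3, if_pos rfl, h4, Nat.testBit_xor, ih n hr2, ih (q * n) hr2]
      simp [Xf]

theorem Vf_congr {b : ℕ → ℕ} {M : ℕ} (hb : ∀ n m, Sim M n m → b n = b m) (Q : List ℕ) {n m : ℕ}
    (h : Sim M n m) : Vf b Q n = Vf b Q m := by
  induction Q generalizing n m with
  | nil => exact hb n m h
  | cons q Q ih =>
    have e : ∀ k, Vf b (q :: Q) k = Vf b Q k ||| ((Vf b Q k ^^^ Vf b Q (q * k)) <<< 2 ^ Q.length) :=
      fun k => rfl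
    rw [e, e, ih h, ih (Sim.mul (Sim.refl M q) h)]

private theorem mem_sel_gen {Q : List ℕ} {q r : ℕ} : q ∈ sel Q r ↔
    ∃ j < Q.length, Q.reverse.getD j 0 = q ∧ r.testBit j = true := by
  induction Q with
  | nil => simp [sel]
  | cons a Q ih =>
    have e2 : sel (a :: Q) r = if r.testBit Q.length then a :: sel Q r else sel Q r := rfl
    have hg : ∀ j < Q.length, (Q.reverse ++ [a]).getD j 0 = Q.reverse.getD j 0 := by
      intro j hj
      exact List.getD_append _ _ _ _ (by simpa using hj)
    have hl : (Q.reverse ++ [a]).getD Q.length 0 = a := by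
      rw [List.getD_append_right _ _ _ _ (by simp)]
      simp
    rw [e2, List.reverse_cons]
    constructor
    · intro h
      have h' : (q ∈ sel Q r) ∨ (q = a ∧ r.testBit Q.length = true) := by
        by_cases hb : r.testBit Q.length = true
        · rw [if_pos hb, List.mem_cons] at h
          rcases h with h | h
          · exact Or.inr ⟨h, hb⟩
          · exact Or.inl h
        · rw [if_neg hb] at h
          exact Or.inl h
      rcases h' with h | ⟨h, hb⟩
      · obtain ⟨j, hj, h1, h2⟩ := ih.1 h
        exact ⟨j, by rw [List.length_cons]; omega, by rw [hg j hj]; exact h1, h2⟩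
      · exact ⟨Q.length, by rw [List.length_cons]; omega, by rw [hl]; exact h.symm, hb⟩
    · rintro ⟨j, hj, h1, h2⟩
      rw [List.length_cons] at hj
      rcases Nat.lt_or_ge j Q.length with h | h
      · rw [hg j h] at h1
        have h3 := ih.2 ⟨j, h, h1, h2⟩
        split_ifs
        · exact List.mem_cons_of_mem _ h3
        · exact h3
      · have : j = Q.length := by omega
        subst this
        rw [hl] at h1
        rw [if_pos h2, h1]
        exact List.mem_cons_self

theorem mem_sel {q r : ℕ} : q ∈ sel primes.reverse r ↔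
    ∃ j < 16, primes.getD j 0 = q ∧ r.testBit j = true := by
  have h := mem_sel_gen (Q := primes.reverse) (q := q) (r := r)
  rw [List.reverse_reverse, List.length_reverse] at h
  exact h

theorem sel_nodup (r : ℕ) : (sel primes.reverse r).Nodup := by
  have h : ∀ Q : List ℕ, (sel Q r).Sublist Q := by
    intro Q
    induction Q with
    | nil => exact List.Sublist.slnil
    | cons a Q ih =>
      unfold sel
      split_ifs
      · exact ih.cons_cons a
      · exact ih.cons a
  refine (h _).nodup ?_
  rw [List.nodup_reverse]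
  decide

/-- Every subset of `{0, …, 15}` is the set of bits of a number. -/
theorem exists_mask (S : ℕ → Bool) : ∃ r < 2 ^ 16, ∀ j < 16, r.testBit j = S j := by
  refine ⟨Nat.ofBits (fun i : Fin 16 => S i), Nat.ofBits_lt_two_pow _, ?_⟩
  intro j hj
  rw [Nat.testBit_ofBits_lt _ _ hj]

end Pool.Agent.Lib.MP_baf44c_co.Q1.En
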