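import Pool.Agent.Lib.MP_baf44c_co.Q1.En.Table

/-!
Correctness of the walk.
-/

set_option autoImplicit false

namespace Pool.Agent.Lib.MP_baf44c_co.Q1.En

/-- `cs` is a list of indices of `x`, one for each character. -/
def Idx (C : List Ch) (x : ℕ) (cs : List ℕ) : Prop :=
  List.Forall₂ (fun (c : Ch) k => k < c.r ∧ Sim c.p x (c.g ^ k)) C cs

/-- The number `(2 ^ 2 ^ n - 1) / (2 ^ 2 ^ j + 1)` for `j < n` and its binary digits. -/
private theorem msk_aux (j d : ℕ) : ∃ m : ℕ, m * (2 ^ 2 ^ j + 1) = 2 ^ 2 ^ (j + 1 + d) - 1 ∧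
    ∀ r < 2 ^ (j + 1 + d), m.testBit r = !(r.testBit j) := by
  induction d with
  | zero =>
    refine ⟨2 ^ 2 ^ j - 1, ?_, ?_⟩
    · have h1 : 1 ≤ 2 ^ 2 ^ j := Nat.one_le_two_pow
      have h2 : 2 ^ 2 ^ (j + 1 + 0) = 2 ^ 2 ^ j * 2 ^ 2 ^ j := by
        rw [← pow_add, Nat.add_zero, pow_succ 2 j, Nat.mul_two]
      rw [h2]
      obtain ⟨a, ha⟩ := Nat.exists_eq_add_of_le h1
      rw [ha, Nat.add_sub_cancel_left]
      have : (1 + a) * (1 + a) = a * (1 + a + 1) + 1 := by ring
      rw [this, Nat.add_sub_cancel]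
    · intro r hr
      rw [Nat.testBit_two_pow_sub_one]
      rw [Nat.add_zero, pow_succ] at hr
      rcases Nat.lt_or_ge r (2 ^ j) with h | h
      · rw [Nat.testBit_lt_two_pow h]
        simpa using h
      · have e : r = 2 ^ j + (r - 2 ^ j) := by omega
        have h1 : r.testBit j = true := by
          rw [e, Nat.testBit_two_pow_add_eq, Nat.testBit_lt_two_pow (by omega)]
          rfl
        rw [h1]
        simpa using h
  | succ d ih =>
    obtain ⟨m, hm, ht⟩ := ih
    have hlt : m < 2 ^ 2 ^ (j + 1 + d) := by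
      have h1 : 1 ≤ 2 ^ 2 ^ (j + 1 + d) := Nat.one_le_two_pow
      have h2 : m * 1 ≤ m * (2 ^ 2 ^ j + 1) := Nat.mul_le_mul_left _ (Nat.le_add_left _ _)
      omega
    refine ⟨2 ^ 2 ^ (j + 1 + d) * m + m, ?_, ?_⟩
    · have h1 : 1 ≤ 2 ^ 2 ^ (j + 1 + d) := Nat.one_le_two_pow
      have h2 : 2 ^ 2 ^ (j + 1 + (d + 1)) = 2 ^ 2 ^ (j + 1 + d) * 2 ^ 2 ^ (j + 1 + d) := by
        rw [← pow_add, ← Nat.mul_two, ← pow_succ, Nat.add_assoc (j + 1)]
      rw [h2]
      have h3 : (2 ^ 2 ^ (j + 1 + d) * m + m) * (2 ^ 2 ^ j + 1) =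
          (2 ^ 2 ^ (j + 1 + d) + 1) * (m * (2 ^ 2 ^ j + 1)) := by ring
      rw [h3, hm]
      obtain ⟨a, ha⟩ := Nat.exists_eq_add_of_le h1
      rw [ha, Nat.add_sub_cancel_left]
      have : (1 + a) * (1 + a) = (1 + a + 1) * a + 1 := by ring
      rw [this, Nat.add_sub_cancel]
    · intro r hr
      rw [Nat.testBit_two_pow_mul_add _ hlt]
      split_ifs with h
      · exact ht r h
      · have hr2 : 2 ^ (j + 1 + (d + 1)) = 2 ^ (j + 1 + d) * 2 := by
          rw [← pow_succ, Nat.add_assoc (j + 1)]
        rw [hr2] at hr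
        rw [ht _ (by omega)]
        have e : r = 2 ^ (j + 1 + d) + (r - 2 ^ (j + 1 + d)) := by omega
        have h1 : r.testBit j = (r - 2 ^ (j + 1 + d)).testBit j := by
          conv_lhs => rw [e]
          exact Nat.testBit_two_pow_add_gt (by omega) _
        rw [h1]

/-- For `j < 16` the number `(2 ^ 2 ^ 16 - 1) / (2 ^ 2 ^ j + 1)` has the binary digits `1` exactly at the `r` with
`r.testBit j = false`: it is `∑ k < 2 ^ (15 - j), (2 ^ 2 ^ j - 1) 2 ^ (k 2 ^ (j + 1))`. (Avoid evaluating
`2 ^ 2 ^ 16` in the elaborator; a kernel evaluation of a suitable statement is also possible.) -/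
theorem testBit_msk {j r : ℕ} (hj : j < 16) (hr : r < 2 ^ 16) :
    (msk j).testBit r = !(r.testBit j) := by
  obtain ⟨d, hd⟩ := Nat.exists_eq_add_of_lt hj
  have hd' : 16 = j + 1 + d := by omega
  obtain ⟨m, hm, ht⟩ := msk_aux j d
  rw [← hd'] at hm ht
  have e : msk j = full / (2 ^ 2 ^ j + 1) := by
    unfold msk
    rw [Nat.pow_eq, Nat.pow_eq]
    rfl
  rw [e, full_eq, ← hm, Nat.mul_div_cancel _ (Nat.succ_pos _)]
  exact ht r hr

theorem testBit_full {r : ℕ} (hr : r < 2 ^ 16) : full.testBit r = true := by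
  rw [full_eq, Nat.testBit_two_pow_sub_one]
  exact decide_eq_true hr

/-- Induction on `ts` with `cov_nil`, `cov_cons`, `cov_cons_nil`; written for the tables of the list
`C`. -/
theorem cov_sound {C : List Ch} {m : ℕ} {cs : List ℕ} {acc r : ℕ}
    (h : cov full (tabs m C) cs acc = true) (hr : r < 2 ^ 16) (hacc : acc.testBit r = false)
    (hlen : C.length = cs.length) :
    ∃ i < C.length, ∃ c, C[i]? = some c ∧ (look (tab m c) (cs.getD i 0)).testBit r = true := by
  induction C generalizing cs acc with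
  | nil =>
    have h' : cov full [] cs acc = true := h
    rw [cov_nil] at h'
    rw [h', testBit_full hr] at hacc
    exact absurd hacc (by decide)
  | cons c C ih =>
    cases cs with
    | nil => simp at hlen
    | cons k cs =>
      have h' : cov full (tab m c :: tabs m C) (k :: cs) acc = true := h
      rw [cov_cons] at h'
      rcases h' with h' | h'
      · rw [h', testBit_full hr] at hacc
        exact absurd hacc (by decide)
      · by_cases ht : (look (tab m c) k).testBit r = true
        · exact ⟨0, by simp, c, rfl, ht⟩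
        · rw [Bool.not_eq_true] at ht
          obtain ⟨i, hi, c', hc', ht'⟩ := ih h' (by rw [Nat.testBit_or, hacc, ht]; rfl)
            (by simpa using hlen)
          exact ⟨i + 1, by simpa using hi, c', by simpa using hc', by
            rw [List.getD_cons_succ]; exact ht'⟩

private theorem walk_pow_sim {p g r : ℕ} (h : Sim p (g ^ r) 1) (k : ℕ) :
    Sim p (g ^ (k % r)) (g ^ k) := by
  have h1 : ∀ t : ℕ, Sim p ((g ^ r) ^ t) 1 := by
    intro t
    induction t with
    | zero => rw [pow_zero]; exact Sim.refl _ _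
    | succ t ih =>
      rw [pow_succ]
      have := Sim.mul ih h
      rwa [Nat.mul_one] at this
  have h2 : g ^ k = g ^ (k % r) * (g ^ r) ^ (k / r) := by
    rw [← pow_mul, ← pow_add, Nat.mod_add_div]
  have h3 := Sim.mul (Sim.refl p (g ^ (k % r))) (h1 (k / r))
  rw [Nat.mul_one] at h3
  rw [h2]
  exact Sim.symm h3

private theorem sim_pow {p a b : ℕ} (h : Sim p a b) (e : ℕ) : Sim p (a ^ e) (b ^ e) := by
  induction e with
  | zero => rw [pow_zero, pow_zero]; exact Sim.refl _ _
  | succ e ih => rw [pow_succ, pow_succ]; exact Sim.mul ih h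

theorem idx_two {C : List Ch} (hC : ∀ c ∈ C, Good c) (e : ℕ) : Idx C (2 ^ e) (two e C) := by
  unfold Idx
  induction C with
  | nil => exact List.Forall₂.nil
  | cons c C ih =>
    have hc : Good c := hC c (by simp)
    have e1 : two e (c :: C) = e * c.i2 % c.r :: two e C := rfl
    rw [e1]
    refine List.Forall₂.cons ⟨Nat.mod_lt _ hc.hr, ?_⟩ (ih (fun c' h => hC c' (by simp [h])))
    have h1 := sim_pow hc.h2 e
    rw [← pow_mul, Nat.mul_comm c.i2 e] at h1
    exact Sim.trans h1 (Sim.symm (walk_pow_sim hc.hg _))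

/-- Multiplication by the prime number `j`. -/
theorem idx_upd {C : List Ch} (hC : ∀ c ∈ C, Good c) {x : ℕ} {cs : List ℕ} (h : Idx C x cs) {j : ℕ}
    (hj : j < 16) : Idx C (x * primes.getD j 0) (upd (rs C) (col j C) cs) := by
  unfold Idx at *
  induction h with
  | nil => exact List.Forall₂.nil
  | @cons c k C cs hck _ ih =>
    have hc : Good c := hC c (by simp)
    have e1 : upd (rs (c :: C)) (col j (c :: C)) (k :: cs) =
        (k + nth j c.ix) % c.r :: upd (rs C) (col j C) cs := rfl
    rw [e1, nth_eq]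
    refine List.Forall₂.cons ⟨Nat.mod_lt _ hc.hr, ?_⟩ (ih (fun c' h => hC c' (by simp [h])))
    have h1 := Sim.mul hck.2 (hc.hix j hj).2
    rw [← pow_add] at h1
    exact Sim.trans h1 (Sim.symm (walk_pow_sim hc.hg _))

/-- If `cov` holds at `n` (indices of `2 ^ e n`), every `r` not in `acc` is covered: `cov_sound`, `look_tab`,
`testBit_Vf`. -/
theorem cov_idx {C : List Ch} (hC : ∀ c ∈ C, Good c) {m x : ℕ} (hx : x % 2 = par m) {cs : List ℕ}
    (h : Idx C x cs) {acc : ℕ} (hcov : cov full (tabs m C) cs acc = true) {r : ℕ} (hr : r < 2 ^ 16)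
    (hacc : acc.testBit r = false) : ∃ c ∈ C, Xf (val c m) (sel primes.reverse r) x = true := by
  obtain ⟨i, hi, c, hc, ht⟩ := cov_sound hcov hr hacc (List.Forall₂.length_eq h)
  have hi' : i < cs.length := by rw [← List.Forall₂.length_eq h]; exact hi
  have h1 := (List.forall₂_iff_get.1 h).2 i hi hi'
  have hci : C[i] = c := by
    rw [List.getElem?_eq_getElem hi] at hc
    exact Option.some.inj hc
  have hmem : c ∈ C := by rw [← hci]; exact List.getElem_mem hi
  rw [List.get_eq_getElem, List.get_eq_getElem] at h1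
  simp only at h1
  rw [hci] at h1
  rw [List.getD_eq_getElem _ _ hi', look_tab (hC c hmem) m h1.1 hx h1.2] at ht
  refine ⟨c, hmem, ?_⟩
  rw [← testBit_Vf (val_lt c m) primes.reverse x (r := r) hr]
  exact ht

private theorem getD_mem_drop {i j : ℕ} (hij : j ≤ i) (hi : i < 16) :
    primes.getD i 0 ∈ primes.drop j := by
  have hl : i < primes.length := hi
  rw [List.getD_eq_getElem _ _ hl, List.mem_iff_getElem]
  refine ⟨i - j, ?_, ?_⟩
  · rw [List.length_drop]; omega
  · rw [List.getElem_drop]
    congr 1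
    omega

private theorem mem_drop_iff {q j : ℕ} : q ∈ primes.drop j ↔
    ∃ i, j ≤ i ∧ i < 16 ∧ q = primes.getD i 0 := by
  constructor
  · intro h
    obtain ⟨k, hk, e⟩ := List.mem_iff_getElem.1 h
    rw [List.length_drop] at hk
    have hl : primes.length = 16 := rfl
    refine ⟨j + k, by omega, by omega, ?_⟩
    rw [List.getElem_drop] at e
    rw [List.getD_eq_getElem _ _ (by omega), e]
  · rintro ⟨i, h1, h2, rfl⟩
    exact getD_mem_drop h1 h2

private theorem primes_mono : ∀ i < 16, ∀ j < 16, primes.getD i 0 ≤ primes.getD j 0 → i ≤ j := by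
  decide

private theorem primes_mono' : ∀ i < 16, ∀ j < 16, i ≤ j → primes.getD i 0 ≤ primes.getD j 0 := by
  decide

private theorem primes_odd : ∀ i < 16, primes.getD i 0 % 2 = 1 := by decide

private theorem primes_drop {j : ℕ} (hj : j < 16) :
    primes.drop j = primes.getD j 0 :: primes.drop (j + 1) := by
  have hl : j < primes.length := hj
  rw [List.getD_eq_getElem _ _ hl]
  exact List.drop_eq_getElem_cons hl

/-- `br` reaches the members of the list for which the product is at most `B`. -/
private theorem br_reach {C : List Ch} {B n : ℕ} {rs cs : List ℕ} {mask : ℕ}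
    {f : ℕ → List ℕ → ℕ → List (ℕ × (List ℕ × ℕ)) → Bool} (d : ℕ) :
    ∀ j i : ℕ, i = j + d → i < 16 → n * primes.getD i 0 ≤ B →
      br B n rs cs mask f (pdata C (primes.drop j) j) = true →
      f (n * primes.getD i 0) (upd rs (col i C) cs) (mask ||| msk i)
        (pdata C (primes.drop i) i) = true := by
  induction d with
  | zero =>
    intro j i hi hi16 hB h
    have : i = j := hi
    subst this
    rw [primes_drop hi16, pdata_cons, br_cons] at h
    rw [primes_drop hi16, pdata_cons]
    exact (h hB).1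
  | succ d ih =>
    intro j i hi hi16 hB h
    have hj : j < 16 := by omega
    rw [primes_drop hj, pdata_cons, br_cons] at h
    have hle : n * primes.getD j 0 ≤ B :=
      le_trans (Nat.mul_le_mul_left _ (primes_mono' j hj i hi16 (by omega))) hB
    exact ih (j + 1) i (by omega) hi16 hB (h hle).2

/-- Induction on the fuel, and inside it induction along the list `primes.drop j` for `br`. If `t > 1` let `q`
be the smallest prime factor of `t`; it is `primes.getD i 0` for some `i ≥ j`, and all earlier members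
`q'` of `primes.drop j` are smaller (the list is increasing), so `n q' ≤ n q ≤ B` and `br` reaches `q`; then
use the induction hypothesis for `n q`, `t / q` and the list `primes.drop i` (the prime factors of `t / q` are
`≥ q`). If `t = 1` use `cov_idx`. -/
theorem walk_sound {C : List Ch} (hC : ∀ c ∈ C, Good c) {m e B : ℕ} (he : 2 ^ e % 2 = par m) (fuel : ℕ) :
    ∀ (n : ℕ) (cs : List ℕ) (mask j : ℕ), n % 2 = 1 → Idx C (2 ^ e * n) cs →
      (∀ r < 2 ^ 16, mask.testBit r = true → ∃ i < 16, primes.getD i 0 ∣ n ∧ r.testBit i = false) →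
      walk full B (rs C) (tabs m C) fuel n cs mask (pdata C (primes.drop j) j) = true →
      ∀ t : ℕ, 0 < t → (∀ q : ℕ, q.Prime → q ∣ t → q ∈ primes.drop j) → n * t ≤ B →
      ∀ r < 2 ^ 16, (∀ i < 16, primes.getD i 0 ∣ n * t → r.testBit i = true) →
        ∃ c ∈ C, Xf (val c m) (sel primes.reverse r) (2 ^ e * (n * t)) = true := by
  induction fuel with
  | zero =>
    intro n cs mask j _ _ _ h
    rw [walk_zero] at h
    exact absurd h (by decide)
  | succ fuel ih =>
    intro n cs mask j hn hidx hmask h t ht hq hB r hr hbits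
    rw [walk_succ] at h
    obtain ⟨hcov, hbr⟩ := h
    by_cases ht1 : t = 1
    · subst ht1
      rw [Nat.mul_one] at hbits ⊢
      refine cov_idx hC ?_ hidx hcov hr ?_
      · rw [Nat.mul_mod, hn, Nat.mul_one, Nat.mod_mod]
        exact he
      · by_contra hm
        rw [Bool.not_eq_false] at hm
        obtain ⟨i, hi, hd, hf⟩ := hmask r hr hm
        rw [hbits i hi hd] at hf
        exact absurd hf (by decide)
    · have hqp := Nat.minFac_prime ht1
      have hqd := Nat.minFac_dvd t
      obtain ⟨i, hji, hi16, hqi⟩ := mem_drop_iff.1 (hq _ hqp hqd)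
      obtain ⟨s, hs⟩ := hqd
      have hs0 : 0 < s := by
        rcases Nat.eq_zero_or_pos s with h0 | h0
        · rw [h0, Nat.mul_zero] at hs
          omega
        · exact h0
      have hns : n * t = n * primes.getD i 0 * s := by
        rw [← hqi, Nat.mul_assoc, ← hs]
      have hB' : n * primes.getD i 0 ≤ B := by
        rw [hns] at hB
        exact le_trans (Nat.le_mul_of_pos_right _ hs0) hB
      have h1 := br_reach (i - j) j i (by omega) hi16 hB' hbr
      rw [hns]
      refine ih (n * primes.getD i 0) _ _ i ?_ ?_ ?_ h1 s hs0 ?_ (by rw [← hns]; exact hB) r hr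
        (by rw [← hns]; exact hbits)
      · rw [Nat.mul_mod, hn, primes_odd i hi16]
      · have h2 := idx_upd hC hidx hi16
        rw [Nat.mul_assoc] at h2
        exact h2
      · intro r' hr' hb
        rw [Nat.testBit_or, Bool.or_eq_true] at hb
        rcases hb with hb | hb
        · obtain ⟨i', hi', hd, hf⟩ := hmask r' hr' hb
          exact ⟨i', hi', Dvd.dvd.mul_right hd _, hf⟩
        · rw [testBit_msk hi16 hr'] at hb
          exact ⟨i, hi16, Dvd.intro_left _ rfl, by simpa using hb⟩
      · intro q' hq' hd'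
        have hd2 : q' ∣ t := by rw [hs]; exact Dvd.dvd.mul_left hd' _
        obtain ⟨i', hji', hi16', hqi'⟩ := mem_drop_iff.1 (hq _ hq' hd2)
        have hle : t.minFac ≤ q' := Nat.minFac_le_of_dvd hq'.two_le hd2
        rw [hqi, hqi'] at hle
        exact mem_drop_iff.2 ⟨i', primes_mono i hi16 i' hi16' hle, hi16', hqi'⟩

/-- The correctness of the computation: `walk_sound` for the members of `primes`, and `cov_idx` for
`n = 1`. -/
theorem run_sound {C : List Ch} (hC : ∀ c ∈ C, Good c) {m e B ex : ℕ} (he : 2 ^ e % 2 = par m)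
    (h : run C m e B ex = true) {n r : ℕ} (hn : 0 < n) (hq : ∀ q : ℕ, q.Prime → q ∣ n → q ∈ primes)
    (hB : n ≤ B) (hr : r < 2 ^ 16) (hnr : ∀ i < 16, primes.getD i 0 ∣ n → r.testBit i = true)
    (hex : n = 1 → ex.testBit r = false) :
    ∃ c ∈ C, Xf (val c m) (sel primes.reverse r) (2 ^ e * n) = true := by
  rw [run_eq] at h
  obtain ⟨hcov, hbr⟩ := h
  by_cases hn1 : n = 1
  · subst hn1
    rw [Nat.mul_one]
    exact cov_idx hC he (idx_two hC e) hcov hr (hex rfl)
  · have hqp := Nat.minFac_prime hn1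
    have hqd := Nat.minFac_dvd n
    obtain ⟨i, _, hi16, hqi⟩ := (mem_drop_iff (j := 0)).1 (hq _ hqp hqd)
    obtain ⟨s, hs⟩ := hqd
    have hs0 : 0 < s := by
      rcases Nat.eq_zero_or_pos s with h0 | h0
      · rw [h0, Nat.mul_zero] at hs
        omega
      · exact h0
    have hns : n = 1 * primes.getD i 0 * s := by
      rw [← hqi, Nat.one_mul, ← hs]
    have hB' : 1 * primes.getD i 0 ≤ B := by
      rw [hns] at hB
      exact le_trans (Nat.le_mul_of_pos_right _ hs0) hB
    have h1 := br_reach i 0 i (by omega) hi16 hB' hbr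
    rw [hns]
    refine walk_sound hC he 20 (1 * primes.getD i 0) _ _ i ?_ ?_ ?_ h1 s hs0 ?_
      (by rw [← hns]; exact hB) r hr (by rw [← hns]; exact hnr)
    · rw [Nat.one_mul]; exact primes_odd i hi16
    · rw [Nat.one_mul]
      exact idx_upd hC (idx_two hC e) hi16
    · intro r' hr' hb
      rw [Nat.zero_or, testBit_msk hi16 hr'] at hb
      exact ⟨i, hi16, Dvd.intro_left _ rfl, by simpa using hb⟩
    · intro q' hq' hd'
      have hd2 : q' ∣ n := by rw [hs]; exact Dvd.dvd.mul_left hd' _
      obtain ⟨i', _, hi16', hqi'⟩ := (mem_drop_iff (j := 0)).1 (hq _ hq' hd2)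
      have hle : n.minFac ≤ q' := Nat.minFac_le_of_dvd hq'.two_le hd2
      rw [hqi, hqi'] at hle
      exact mem_drop_iff.2 ⟨i', primes_mono i hi16 i' hi16' hle, hi16', hqi'⟩

end Pool.Agent.Lib.MP_baf44c_co.Q1.En
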